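import Pool.Agent.Lib.H38H.Stm

/-!
Project H38H, module VO (Voorhoeve bound, planted permutations, sums): definitions.
See PROOF.md, sections (4a), (4b), (4c), and VO/README.md.
-/

set_option autoImplicit false

namespace Pool.Agent.H38H.VO

open Classical

/-- the permanent of a matrix whose rows and columns are indexed by two finite types -/
noncomputable def per {ι κ : Type} [Fintype ι] [Fintype κ] (A : ι → κ → ℕ) : ℕ :=
  ∑ σ : ι ≃ κ, ∏ i, A i (σ i)

/-- the matrix with the entry `(i, j)` decreased by one -/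
noncomputable def dec {ι κ : Type} (A : ι → κ → ℕ) (i : ι) (j : κ) : ι → κ → ℕ :=
  fun i' j' => if i' = i ∧ j' = j then A i' j' - 1 else A i' j'

/-- contraction: delete row `i0` and column `a`, add column `a` to column `b` -/
noncomputable def ctr {ι κ : Type} (A : ι → κ → ℕ) (i0 : ι) (a b : κ) :
    {i // i ≠ i0} → {j // j ≠ a} → ℕ :=
  fun i j => A i.1 j.1 + if j.1 = b then A i.1 a else 0

/-- all row sums and column sums are 3 -/
def Umat {ι κ : Type} [Fintype ι] [Fintype κ] (A : ι → κ → ℕ) : Prop :=
  (∀ i, ∑ j, A i j = 3) ∧ ∀ j, ∑ i, A i j = 3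

/-- all row sums and column sums are 3, except that row `i0` and column `j0` have sum 2 -/
def Vmat {ι κ : Type} [Fintype ι] [Fintype κ] (A : ι → κ → ℕ) (i0 : ι) (j0 : κ) : Prop :=
  (∀ i, ∑ j, A i j = if i = i0 then 2 else 3) ∧ ∀ j, ∑ i, A i j = if j = j0 then 2 else 3

/-- `π` maps every vertex to a neighbour -/
def Compat {V : Type} (G : SimpleGraph V) (π : Equiv.Perm V) : Prop := ∀ v, G.Adj v (π v)

/-- the number of perfect matchings of a set with `n` elements -/
def cPM (n : ℕ) : ℕ := if n % 2 = 0 then Nat.doubleFactorial (n - 1) else 0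

/-- the number of vertices in 2-cycles (for `π` without fixed points) -/
noncomputable def dc {V : Type} (π : Equiv.Perm V) : ℕ := Nat.card {v // IsD π v}

/-- the marks which are edges of `π` -/
noncomputable def piMarks {V : Type} (π : Equiv.Perm V) (E : Finset (Sym2 V)) : Finset (Sym2 V) :=
  E.filter (fun e => ∃ v, e = s(v, π v))

theorem mem_piMarks {V : Type} (π : Equiv.Perm V) (E : Finset (Sym2 V)) (e : Sym2 V) :
    e ∈ piMarks π E ↔ e ∈ E ∧ ∃ v, e = s(v, π v) := Finset.mem_filter

theorem piMarks_subset {V : Type} (π : Equiv.Perm V) (E : Finset (Sym2 V)) : piMarks π E ⊆ E :=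
  fun _ he => ((mem_piMarks π E _).1 he).1

/-- the weight of a permutation -/
noncomputable def w1 {V : Type} [Fintype V] [DecidableEq V] (π : Equiv.Perm V) : ℝ :=
  if (∀ v, π v ≠ v) then
    (2 : ℝ) ^ longCycles π * (cPM (Fintype.card V + dc π) : ℝ) / (2 : ℝ) ^ dc π
  else 0

/-- the number of cycles, fixed points included -/
noncomputable def cyc {β : Type} (ρ : Equiv.Perm β) : ℕ :=
  Nat.card (Quotient (Equiv.Perm.SameCycle.setoid ρ))

theorem isD_iff {V : Type} (π : Equiv.Perm V) (x : V) : IsD π (π x) ↔ IsD π x := by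
  unfold IsD
  exact π.injective.eq_iff

/-- the restriction of `π` to the complement of the 2-cycles -/
noncomputable def cPart {V : Type} (π : Equiv.Perm V) : Equiv.Perm {v // ¬ IsD π v} :=
  π.subtypePerm (fun x => not_congr (isD_iff π x))

end Pool.Agent.H38H.VO
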