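import Pool.Agent.Lib.H38H.VO.Defs
import Pool.Agent.Lib.H38H.PR2

/-!
Project H38H, chunk VO6 (M): from PR1 and PR2.
-/

set_option autoImplicit false

namespace Pool.Agent.H38H.VO

open Classical

theorem card_PM (α : Type) [Fintype α] : Nat.card (PM α) = cPM (Fintype.card α) := by
  unfold cPM
  split_ifs with h
  · exact Pool.Agent.H38H.card_PM α (Nat.even_iff.2 h)
  · exact Pool.Agent.H38H.card_PM_odd α (fun h' => h (Nat.even_iff.1 h'))

theorem card_contains (α : Type) [Fintype α] (ξ : Finset (Sym2 α)) (hξ : Marks ξ) :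
    2 * ξ.card ≤ Fintype.card α ∧
      Nat.card {R : PM α // Contains R ξ} = cPM (Fintype.card α - 2 * ξ.card) := by
  have h1 := Pool.Agent.H38H.card_compl hξ
  refine ⟨by omega, ?_⟩
  rw [Pool.Agent.H38H.card_contains hξ, card_PM]
  congr 1
  omega

end Pool.Agent.H38H.VO
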