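import Pool.Agent.Lib.H38H.VO.Defs

/-!
Project H38H, chunk VO7 (S).
`card_port`: ports = V x {false} together with {v // IsD π v} x {true}. `even_dc`: `π` restricted to
`{v // IsD π v}` is an involution without fixed points (`isD_iff`), so the number of these vertices is even
(`Equiv.Perm.two_dvd_card_support` or pairing argument).
`cPM_sub`: for even `P`, `(P-1)!! = (P-2j-1)!! * ∏_{i<j} (P-1-2i)` and each factor is `≥ P - 2j + 1 ≥ N/2`. Induction on `j`.
-/

set_option autoImplicit false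

namespace Pool.Agent.H38H.VO

open Classical

/-- the ports -/
noncomputable def vo7_equiv {V : Type} (π : Equiv.Perm V) : Port π ≃ V ⊕ {v // IsD π v} where
  toFun q := if h : q.1.2 = true then Sum.inr ⟨q.1.1, q.2 h⟩ else Sum.inl q.1.1
  invFun x := Sum.elim (fun v => ⟨(v, false), fun h => by simp at h⟩) (fun v => ⟨(v.1, true), fun _ => v.2⟩) x
  left_inv := by
    rintro ⟨⟨v, b⟩, hb⟩
    cases b with
    | false => rfl
    | true => rfl
  right_inv := by
    rintro (v | ⟨v, hv⟩)
    · rfl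
    · rfl

theorem card_port {V : Type} [Fintype V] (π : Equiv.Perm V) :
    Fintype.card (Port π) = Fintype.card V + dc π := by
  rw [Fintype.card_congr (vo7_equiv π), Fintype.card_sum]
  unfold dc
  rw [Nat.card_eq_fintype_card]

theorem even_dc {V : Type} [Fintype V] (π : Equiv.Perm V) (h : ∀ v, π v ≠ v) : Even (dc π) := by
  let τ : Equiv.Perm {v // IsD π v} := π.subtypePerm (fun x => isD_iff π x)
  have h1 : τ ^ 2 = 1 := by
    apply Equiv.ext
    intro v
    apply Subtype.ext
    rw [pow_two]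
    exact v.2
  have h2 := Equiv.Perm.two_dvd_card_support h1
  have h3 : τ.support = Finset.univ := by
    apply Finset.eq_univ_of_forall
    intro v
    rw [Equiv.Perm.mem_support]
    intro h4
    exact h v.1 (congrArg Subtype.val h4)
  rw [h3, Finset.card_univ, ← Nat.card_eq_fintype_card] at h2
  exact even_iff_two_dvd.2 h2

theorem vo7_step (P : ℕ) (h4 : 4 ≤ P) (hP : Even P) : cPM P = (P - 1) * cPM (P - 2) := by
  obtain ⟨k, rfl⟩ : ∃ k, P = k + 4 := ⟨P - 4, by omega⟩
  have h1 : (k + 4) % 2 = 0 := Nat.even_iff.1 hP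
  have h2 : (k + 4 - 2) % 2 = 0 := by omega
  unfold cPM
  rw [if_pos h1, if_pos h2]
  have h3 : k + 4 - 1 = (k + 1) + 2 := by omega
  have h5 : k + 4 - 2 - 1 = k + 1 := by omega
  rw [h3, h5, Nat.doubleFactorial_add_two]

theorem cPM_sub (N P j : ℕ) (hN : 0 < N) (hNP : N ≤ P) (hj : 4 * j ≤ N) (hP : Even P) :
    (cPM (P - 2 * j) : ℝ) ≤ (2 / (N : ℝ)) ^ j * (cPM P : ℝ) := by
  induction j with
  | zero => simp
  | succ j ih =>
    have h1 := ih (by omega)
    have h2 : cPM (P - 2 * j) = (P - 2 * j - 1) * cPM (P - 2 * (j + 1)) := by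
      have h3 := vo7_step (P - 2 * j) (by omega) (by
        obtain ⟨m, hm⟩ := hP
        exact ⟨m - j, by omega⟩)
      have h4 : P - 2 * j - 2 = P - 2 * (j + 1) := by omega
      rw [h4] at h3
      exact h3
    have hN' : (0 : ℝ) < N := by exact_mod_cast hN
    have h5 : (N : ℝ) / 2 ≤ ((P - 2 * j - 1 : ℕ) : ℝ) := by
      have h6 : N ≤ 2 * (P - 2 * j - 1) := by omega
      have h7 : (N : ℝ) ≤ 2 * ((P - 2 * j - 1 : ℕ) : ℝ) := by exact_mod_cast h6
      linarith
    have h8 : (N : ℝ) / 2 * (cPM (P - 2 * (j + 1)) : ℝ) ≤ (cPM (P - 2 * j) : ℝ) := by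
      rw [h2]
      push_cast
      exact mul_le_mul_of_nonneg_right (by exact_mod_cast h5) (Nat.cast_nonneg _)
    calc (cPM (P - 2 * (j + 1)) : ℝ) = 2 / N * (N / 2 * (cPM (P - 2 * (j + 1)) : ℝ)) := by
          field_simp
      _ ≤ 2 / N * ((2 / (N : ℝ)) ^ j * (cPM P : ℝ)) :=
          mul_le_mul_of_nonneg_left (h8.trans h1) (by positivity)
      _ = (2 / (N : ℝ)) ^ (j + 1) * (cPM P : ℝ) := by ring

end Pool.Agent.H38H.VO
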