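import Pool.Agent.Lib.H38H.VO.Defs

/-!
Project H38H, chunk VO8 (M).
For `G` with `Cubic G`, `Compat G π` (so `π` has no fixed point): the rest `rem v = {w | G.Adj v w, w ≠ π v, w ≠ π⁻¹ v}` has 2
elements if `IsD π v` (then `π v = π⁻¹ v`), otherwise 1 (`π v ≠ π⁻¹ v` are two neighbours). `w ∈ rem v ↔ v ∈ rem w`. A FAMILY is
`e : ∀ v, {b : Bool // b = true → IsD π v} ≃ rem v` (ports at `v` against the remaining neighbours). The number of families is
`∏ v, (#rem v)! = 2 ^ dc π` (`Fintype.card_pi`, `Fintype.card_equiv`). A family gives the matching `R (v, b) = (w, (e w)⁻¹ v)`, `w = e v b`: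
involution, no fixed point, and `Gr π R = G`. Different families give different `R` (`(R (v,b)).1.1 = e v b`).
So `#{R // Gr π R = G} ≥ 2 ^ dc π` (`fiber_card`), and summing over the graphs `G` with `Q G`, `Compat G π`: `graphs_le`
(injection `(G, e) ↦ R`; `G = Gr π R` is determined by `R`).
-/

set_option autoImplicit false

namespace Pool.Agent.H38H.VO

open Classical

/-- the remaining neighbours -/
def vo8_rem {V : Type} (π : Equiv.Perm V) (G : SimpleGraph V) (v : V) : Set V :=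
  {w | G.Adj v w ∧ w ≠ π v ∧ π w ≠ v}

/-- the ports at a vertex -/
abbrev vo8_B {V : Type} (π : Equiv.Perm V) (v : V) : Type := {b : Bool // b = true → IsD π v}

section

variable {V : Type} [Fintype V] {π : Equiv.Perm V} {G : SimpleGraph V}

omit [Fintype V] in
theorem vo8_symm {v w : V} (h : w ∈ vo8_rem π G v) : v ∈ vo8_rem π G w :=
  ⟨h.1.symm, fun h1 => h.2.2 h1.symm, fun h1 => h.2.1 h1.symm⟩

theorem vo8_card (hG : Cubic G) (hπ : Compat G π) (v : V) :
    Nat.card (vo8_rem π G v) = if IsD π v then 2 else 1 := by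
  have h1 : π v ∈ G.neighborSet v := hπ v
  have h2 : π.symm v ∈ G.neighborSet v := by
    have h3 := hπ (π.symm v)
    rw [Equiv.apply_symm_apply] at h3
    exact h3.symm
  have h4 : vo8_rem π G v = (G.neighborSet v \ {π v}) \ {π.symm v} := by
    ext w
    simp only [vo8_rem, Set.mem_ofPred_eq, Set.mem_sdiff, Set.mem_singleton_iff,
      SimpleGraph.mem_neighborSet, ne_eq, Equiv.eq_symm_apply]
    tauto
  have hfin : (G.neighborSet v).Finite := Set.toFinite _
  have h5 : (G.neighborSet v \ {π v}).ncard = 2 := by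
    have h6 := Set.ncard_sdiff_singleton_add_one h1 hfin
    rw [hG v] at h6
    omega
  rw [Nat.card_coe_set_eq, h4]
  by_cases hD : IsD π v
  · rw [if_pos hD]
    have h7 : π.symm v = π v := by
      rw [Equiv.symm_apply_eq]
      exact hD.symm
    rw [h7, Set.sdiff_singleton_eq_self, h5]
    exact fun h8 => h8.2 rfl
  · rw [if_neg hD]
    have h7 : π.symm v ∈ G.neighborSet v \ {π v} := by
      refine ⟨h2, fun h8 => hD ?_⟩
      have h9 : π.symm v = π v := h8
      rw [Equiv.symm_apply_eq] at h9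
      exact h9.symm
    have h8 := Set.ncard_sdiff_singleton_add_one h7 (Set.toFinite _)
    rw [h5] at h8
    omega

omit [Fintype V] in
theorem vo8_cardB (v : V) : Nat.card (vo8_B π v) = if IsD π v then 2 else 1 := by
  by_cases hD : IsD π v
  · rw [if_pos hD]
    have e : vo8_B π v ≃ Bool := Equiv.subtypeUnivEquiv fun b _ => hD
    rw [Nat.card_congr e, Nat.card_eq_fintype_card, Fintype.card_bool]
  · rw [if_neg hD, Nat.card_eq_one_iff_unique]
    refine ⟨⟨?_⟩, ⟨⟨false, by simp⟩⟩⟩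
    rintro ⟨b, hb⟩ ⟨c, hc⟩
    cases b with
    | true => exact absurd (hb rfl) hD
    | false =>
      cases c with
      | true => exact absurd (hc rfl) hD
      | false => rfl

/-- the map on ports given by a family -/
noncomputable def vo8_g (e : ∀ v : V, vo8_B π v ≃ vo8_rem π G v) (q : Port π) : Port π :=
  ⟨((e q.1.1 ⟨q.1.2, q.2⟩ : V),
    ((e (e q.1.1 ⟨q.1.2, q.2⟩ : V)).symm ⟨q.1.1, vo8_symm (e q.1.1 ⟨q.1.2, q.2⟩).2⟩).1),
    ((e (e q.1.1 ⟨q.1.2, q.2⟩ : V)).symm ⟨q.1.1, vo8_symm (e q.1.1 ⟨q.1.2, q.2⟩).2⟩).2⟩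

omit [Fintype V] in
theorem vo8_ext {p q : Port π} (h1 : p.1.1 = q.1.1) (h2 : p.1.2 = q.1.2) : p = q :=
  Subtype.ext (Prod.ext h1 h2)

omit [Fintype V] in
theorem vo8_gg (e : ∀ v : V, vo8_B π v ≃ vo8_rem π G v) (q : Port π) : vo8_g e (vo8_g e q) = q := by
  have key : ∀ (v : V) (b : vo8_B π v) (w : V) (hw : w ∈ vo8_rem π G v) (hw' : (e v b : V) = w),
      (e w ((e w).symm ⟨v, vo8_symm hw⟩) : V) = v := by
    intro v b w hw hw'
    rw [Equiv.apply_symm_apply]
  have h1 : (vo8_g e (vo8_g e q)).1.1 = q.1.1 :=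
    key q.1.1 ⟨q.1.2, q.2⟩ _ (e q.1.1 ⟨q.1.2, q.2⟩).2 rfl
  refine vo8_ext h1 ?_
  have h2 : ∀ (u : V) (hu : u = q.1.1) (ha : (vo8_g e q).1.1 ∈ vo8_rem π G u),
      ((e u).symm ⟨(vo8_g e q).1.1, ha⟩).1 = q.1.2 := by
    rintro u rfl ha
    have h3 : (e q.1.1).symm ⟨(vo8_g e q).1.1, ha⟩ = ⟨q.1.2, q.2⟩ := by
      rw [Equiv.symm_apply_eq]
      rfl
    rw [h3]
  exact h2 _ h1 _

omit [Fintype V] in
theorem vo8_gne (e : ∀ v : V, vo8_B π v ≃ vo8_rem π G v) (q : Port π) : vo8_g e q ≠ q := by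
  intro h
  have h1 : (e q.1.1 ⟨q.1.2, q.2⟩ : V) = q.1.1 := congrArg (fun q : Port π => q.1.1) h
  have h2 := (e q.1.1 ⟨q.1.2, q.2⟩).2.1
  rw [h1] at h2
  exact G.loopless.irrefl _ h2

/-- the matching of a family -/
noncomputable def vo8_R (e : ∀ v : V, vo8_B π v ≃ vo8_rem π G v) : PM (Port π) :=
  ⟨Function.Involutive.toPerm (vo8_g e) (vo8_gg e), vo8_gg e, vo8_gne e⟩

omit [Fintype V] in
theorem vo8_Gr (hπ : Compat G π) (e : ∀ v : V, vo8_B π v ≃ vo8_rem π G v) : Gr π (vo8_R e) = G := by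
  ext u v
  constructor
  · rintro ⟨-, h | h | ⟨p, rfl, h⟩⟩
    · rw [← h]
      exact hπ u
    · rw [← h]
      exact (hπ v).symm
    · rw [← h]
      exact (e p.1.1 ⟨p.1.2, p.2⟩).2.1
  · intro h
    refine ⟨h.ne, ?_⟩
    by_cases h1 : π u = v
    · exact Or.inl h1
    by_cases h2 : π v = u
    · exact Or.inr (Or.inl h2)
    right; right
    have hv : v ∈ vo8_rem π G u := ⟨h, fun h3 => h1 h3.symm, h2⟩
    let b := (e u).symm ⟨v, hv⟩
    refine ⟨⟨(u, b.1), b.2⟩, rfl, ?_⟩
    change (e u ⟨b.1, b.2⟩ : V) = v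
    have h3 : e u ⟨b.1, b.2⟩ = ⟨v, hv⟩ := Equiv.apply_symm_apply _ _
    rw [h3]

end

theorem fiber_card {V : Type} [Fintype V] (π : Equiv.Perm V) (G : SimpleGraph V) (hG : Cubic G)
    (hπ : Compat G π) : 2 ^ dc π ≤ Nat.card {R : PM (Port π) // Gr π R = G} := by
  have hfin : Finite (PM (Port π)) := by
    unfold PM
    infer_instance
  have h1 : Nat.card (∀ v : V, vo8_B π v ≃ vo8_rem π G v) = 2 ^ dc π := by
    rw [Nat.card_pi]
    have h2 : ∀ v : V, Nat.card (vo8_B π v ≃ vo8_rem π G v) = if IsD π v then 2 else 1 := by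
      intro v
      have hf : Fintype (vo8_rem π G v) := Fintype.ofFinite _
      have hc : Fintype.card (vo8_B π v) = Fintype.card (vo8_rem π G v) := by
        rw [← Nat.card_eq_fintype_card, ← Nat.card_eq_fintype_card, vo8_cardB, vo8_card hG hπ]
      rw [Nat.card_eq_fintype_card, Fintype.card_equiv (Fintype.equivOfCardEq hc),
        ← Nat.card_eq_fintype_card, vo8_cardB]
      split_ifs <;> rfl
    rw [Finset.prod_congr rfl fun v _ => h2 v, Finset.prod_ite, Finset.prod_const, Finset.prod_const,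
      one_pow, mul_one]
    unfold dc
    rw [Nat.card_eq_fintype_card, Fintype.card_subtype]
  rw [← h1]
  refine Nat.card_le_card_of_injective (fun e => (⟨vo8_R e, vo8_Gr hπ e⟩ :
    {R : PM (Port π) // Gr π R = G})) ?_
  intro e e' h
  have h2 : vo8_R e = vo8_R e' := congrArg Subtype.val h
  funext v
  apply Equiv.ext
  intro b
  apply Subtype.ext
  exact congrArg (fun R : PM (Port π) => (R.1 (⟨(v, b.1), b.2⟩ : Port π)).1.1) h2

theorem graphs_le {V : Type} [Fintype V] (π : Equiv.Perm V) (Q : SimpleGraph V → Prop)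
    (hQ : ∀ G, Q G → Cubic G) :
    2 ^ dc π * Nat.card {G : SimpleGraph V // Q G ∧ Compat G π} ≤
      Nat.card {R : PM (Port π) // Q (Gr π R)} := by
  have hfin : Finite (PM (Port π)) := by
    unfold PM
    infer_instance
  have hfi : Fintype {G : SimpleGraph V // Q G ∧ Compat G π} := Fintype.ofFinite _
  have h1 : Nat.card (Σ G : {G : SimpleGraph V // Q G ∧ Compat G π}, {R : PM (Port π) // Gr π R = G.1}) ≤
      Nat.card {R : PM (Port π) // Q (Gr π R)} := by
    refine Nat.card_le_card_of_injective (fun x => (⟨x.2.1, by rw [x.2.2]; exact x.1.2.1⟩ :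
      {R : PM (Port π) // Q (Gr π R)})) ?_
    rintro ⟨⟨G, hG⟩, ⟨R, hR⟩⟩ ⟨⟨G', hG'⟩, ⟨R', hR'⟩⟩ h
    have h2 : R = R' := congrArg Subtype.val h
    subst h2
    have hR1 : Gr π R = G := hR
    have hR1' : Gr π R = G' := hR'
    subst hR1
    subst hR1'
    rfl
  refine le_trans ?_ h1
  rw [Nat.card_sigma]
  calc 2 ^ dc π * Nat.card {G : SimpleGraph V // Q G ∧ Compat G π}
      = ∑ _G : {G : SimpleGraph V // Q G ∧ Compat G π}, 2 ^ dc π := by
        rw [Finset.sum_const, Finset.card_univ, Nat.card_eq_fintype_card, smul_eq_mul, mul_comm]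
    _ ≤ ∑ G : {G : SimpleGraph V // Q G ∧ Compat G π}, Nat.card {R : PM (Port π) // Gr π R = G.1} :=
        Finset.sum_le_sum fun G _ => fiber_card π G.1 (hQ G.1 G.2.1) G.2.2

end Pool.Agent.H38H.VO
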