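import Pool.Agent.Lib.H38H.VO.Defs

/-!
Project H38H, chunk VO9 (M).
Let `E' = E \ piMarks π E`. For `e = s(u,v)` in `E'` there are at most `2 * 2` pairs `s(p,q)` of ports with `p` at `u`, `q` at `v`.
`Ξ` = the set of images of all choice functions (one pair over every `e ∈ E'`): `#Ξ ≤ 4 ^ #E'`. Each such `ξ`: pairs over
different (disjoint) marks are disjoint, `u ≠ v` so the pairs are not diagonal; `#ξ = #E'`; `Realises π E ξ` (for the third clause:
`s(p,q) ∈ ξ` lies over a mark in `E'`, which is not of the form `s(v, π v)`). If all `e ∈ E` are edges of `Gr π R` then every `e ∈ E'`, not being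
of the form `s(v, π v)`, is `s(p.1.1, (R p).1.1)` for a port `p`: choose the pair `s(p, R p)`; then `Contains R ξ` (`R` is an involution).
(`#E' = E.card - (piMarks π E).card` as `piMarks π E ⊆ E`.)
-/

set_option autoImplicit false

namespace Pool.Agent.H38H.VO

open Classical

/-- the vertex of a port -/
def vo9_pr {V : Type} {π : Equiv.Perm V} (p : Port π) : V := p.1.1

/-- the pairs of ports over a mark -/
noncomputable def vo9_P {V : Type} [Fintype V] (π : Equiv.Perm V) (e : Sym2 V) : Finset (Sym2 (Port π)) :=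
  Finset.univ.filter (fun x => x.map vo9_pr = e)

theorem vo9_mem {V : Type} [Fintype V] {π : Equiv.Perm V} {e : Sym2 V} {x : Sym2 (Port π)} :
    x ∈ vo9_P π e ↔ x.map vo9_pr = e := by
  unfold vo9_P
  rw [Finset.mem_filter]
  exact ⟨fun h => h.2, fun h => ⟨Finset.mem_univ _, h⟩⟩

theorem vo9_at {V : Type} [Fintype V] (π : Equiv.Perm V) (u : V) :
    (Finset.univ.filter (fun p : Port π => vo9_pr p = u)).card ≤ 2 := by
  have h1 : (Finset.univ.filter (fun p : Port π => vo9_pr p = u)).card ≤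
      (Finset.univ : Finset Bool).card := by
    refine Finset.card_le_card_of_injOn (fun p => p.1.2) (fun _ _ => Finset.mem_coe.2 (Finset.mem_univ _)) ?_
    intro p hp q hq hpq
    have hp' := (Finset.mem_filter.1 (Finset.mem_coe.1 hp)).2
    have hq' := (Finset.mem_filter.1 (Finset.mem_coe.1 hq)).2
    exact Subtype.ext (Prod.ext (hp'.trans hq'.symm) hpq)
  simpa using h1

theorem vo9_card {V : Type} [Fintype V] (π : Equiv.Perm V) (e : Sym2 V) : (vo9_P π e).card ≤ 4 := by
  induction e using Sym2.ind with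
  | _ u v =>
    have h1 : vo9_P π s(u, v) ⊆ ((Finset.univ.filter (fun p : Port π => vo9_pr p = u)) ×ˢ
        (Finset.univ.filter (fun p : Port π => vo9_pr p = v))).image (fun z => s(z.1, z.2)) := by
      intro x hx
      rw [vo9_mem] at hx
      induction x using Sym2.ind with
      | _ p q =>
        rw [Sym2.map_mk] at hx
        rw [Finset.mem_image]
        rcases Sym2.eq_iff.1 hx with ⟨h1, h2⟩ | ⟨h1, h2⟩
        · exact ⟨(p, q), by simp [h1, h2], rfl⟩
        · exact ⟨(q, p), by simp [h1, h2], Sym2.eq_swap⟩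
    refine (Finset.card_le_card h1).trans (Finset.card_image_le.trans ?_)
    rw [Finset.card_product]
    have h2 := vo9_at π u
    have h3 := vo9_at π v
    calc _ ≤ 2 * 2 := Nat.mul_le_mul h2 h3
      _ = 4 := rfl

theorem vo9_pm {V : Type} (π : Equiv.Perm V) (E : Finset (Sym2 V)) (e : Sym2 V) :
    e ∈ piMarks π E ↔ e ∈ E ∧ ∃ v, e = s(v, π v) := by
  unfold piMarks
  exact Finset.mem_filter

theorem exists_Xi {V : Type} [Fintype V] (π : Equiv.Perm V) (E : Finset (Sym2 V)) (hE : Marks E) :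
    ∃ Ξ : Finset (Finset (Sym2 (Port π))), Ξ.card ≤ 4 ^ (E.card - (piMarks π E).card) ∧
      (∀ ξ ∈ Ξ, Realises π E ξ ∧ ξ.card = E.card - (piMarks π E).card) ∧
      ∀ R : PM (Port π), (∀ e ∈ E, e ∈ (Gr π R).edgeSet) → ∃ ξ ∈ Ξ, Contains R ξ := by
  let E' : Finset (Sym2 V) := E \ piMarks π E
  have hE'c : E'.card = E.card - (piMarks π E).card :=
    Finset.card_sdiff_of_subset (fun e he => ((vo9_pm π E e).1 he).1)
  have hE' : ∀ e ∈ E', e ∈ E ∧ ∀ v, e ≠ s(v, π v) := by
    intro e he
    obtain ⟨h1, h2⟩ := Finset.mem_sdiff.1 he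
    exact ⟨h1, fun v hv => h2 ((vo9_pm π E e).2 ⟨h1, v, hv⟩)⟩
  let F : (∀ e ∈ E', Sym2 (Port π)) → Finset (Sym2 (Port π)) := fun f => E'.attach.image (fun e => f e.1 e.2)
  refine ⟨(E'.pi (vo9_P π)).image F, ?_, ?_, ?_⟩
  · refine Finset.card_image_le.trans ?_
    rw [Finset.card_pi, ← hE'c]
    exact Finset.prod_le_pow_card _ _ _ fun e _ => vo9_card π e
  · intro ξ hξ
    obtain ⟨f, hf, rfl⟩ := Finset.mem_image.1 hξ
    have hf' : ∀ (e : Sym2 V) (he : e ∈ E'), (f e he).map vo9_pr = e := fun e he =>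
      vo9_mem.1 (Finset.mem_pi.1 hf e he)
    have hmem : ∀ x ∈ F f, ∃ (e : Sym2 V) (he : e ∈ E'), f e he = x := by
      intro x hx
      obtain ⟨e, -, he⟩ := Finset.mem_image.1 hx
      exact ⟨e.1, e.2, he⟩
    refine ⟨⟨⟨?_, ?_⟩, ?_, ?_⟩, ?_⟩
    · intro x hx hd
      obtain ⟨e, he, rfl⟩ := hmem x hx
      apply hE.1 e (hE' e he).1
      rw [← hf' e he]
      exact hd.map
    · intro x hx y hy hne p hpx hpy
      obtain ⟨e, he, rfl⟩ := hmem x hx
      obtain ⟨e', he', rfl⟩ := hmem y hy
      have h1 : vo9_pr p ∈ e := by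
        rw [← hf' e he]
        exact Sym2.mem_map.2 ⟨p, hpx, rfl⟩
      have h2 : vo9_pr p ∈ e' := by
        rw [← hf' e' he']
        exact Sym2.mem_map.2 ⟨p, hpy, rfl⟩
      have h3 : e ≠ e' := by
        rintro rfl
        exact hne rfl
      exact hE.2 e (hE' e he).1 e' (hE' e' he').1 h3 _ h1 h2
    · intro e he
      by_cases h1 : e ∈ piMarks π E
      · exact Or.inl ((vo9_pm π E e).1 h1).2
      · right
        have he' : e ∈ E' := Finset.mem_sdiff.2 ⟨he, h1⟩
        have h2 := hf' e he'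
        have h3 : f e he' ∈ F f := Finset.mem_image.2 ⟨⟨e, he'⟩, Finset.mem_attach _ _, rfl⟩
        generalize f e he' = x at h2 h3
        induction x using Sym2.ind with
        | _ p q => exact ⟨p, q, h3, h2.symm⟩
    · intro p q hpq
      obtain ⟨e, he, h1⟩ := hmem _ hpq
      have h2 := hf' e he
      rw [h1] at h2
      have h3 : s(p.1.1, q.1.1) = e := h2
      rw [h3]
      exact hE' e he
    · rw [← hE'c, ← Finset.card_attach (s := E')]
      apply Finset.card_image_of_injective
      intro e e' h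
      apply Subtype.ext
      rw [← hf' e.1 e.2, ← hf' e'.1 e'.2]
      exact congrArg (Sym2.map vo9_pr) h
  · intro R hR
    have hx : ∀ (e : Sym2 V) (_ : e ∈ E'), ∃ p : Port π, s(vo9_pr p, vo9_pr (R.1 p)) = e := by
      intro e he
      obtain ⟨h1, h2⟩ := hE' e he
      have h3 := hR e h1
      induction e using Sym2.ind with
      | _ u v =>
        rw [SimpleGraph.mem_edgeSet] at h3
        obtain ⟨-, h4 | h4 | ⟨p, h4, h5⟩⟩ := h3
        · exact absurd (by rw [h4]) (h2 u)
        · exact absurd (by rw [h4, Sym2.eq_swap]) (h2 v)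
        · refine ⟨p, ?_⟩
          rw [← h4, ← h5]
          rfl
    choose p hp using hx
    refine ⟨F (fun e he => s(p e he, R.1 (p e he))),
      Finset.mem_image.2 ⟨fun e he => s(p e he, R.1 (p e he)), ?_, rfl⟩, ?_⟩
    · rw [Finset.mem_pi]
      intro e he
      exact vo9_mem.2 (hp e he)
    · intro a b hab
      obtain ⟨e, -, he⟩ := Finset.mem_image.1 hab
      rcases Sym2.eq_iff.1 he with ⟨h1, h2⟩ | ⟨h1, h2⟩
      · rw [← h1, h2]
      · rw [← h2, ← h1]
        exact R.2.1 _

end Pool.Agent.H38H.VO
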