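import Pool.Agent.Lib.H38H.VO.Defs
import Pool.Agent.Lib.H38H.VO.VO6
import Pool.Agent.Lib.H38H.VO.VO7
import Pool.Agent.Lib.H38H.VO.VO8
import Pool.Agent.Lib.H38H.VO.VO9

/-!
Project H38H, chunk VO10 (M).
Per-permutation bound (one fixed `π`). N = card V, j = E.card - (piMarks π E).card.
If `π` has a fixed point no graph is compatible with it and the left side is 0. Otherwise `graphs_le` with
`Q G = Cubic G ∧ (∀ e ∈ E, e ∈ G.edgeSet) ∧ Nice κ G E ∧ ¬ HC G E`: `2^dc π * #{G} ≤ #{R // Q (Gr π R)} ≤ ∑ ξ ∈ Ξ, #{R // Contains R ξ ∧ Q (Gr π R)}`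
(`exists_Xi`). If `longCycles π ≤ 10 a log N`, the hypothesis `hP` bounds each term by `#{R // Contains R ξ} / N^a`; otherwise use
`#{R // Contains R ξ}`. By `card_contains`, `card_port`, `even_dc`, `cPM_sub` (P = N + dc π even):
`#{R // Contains R ξ} = cPM (P - 2j) ≤ (2/N)^j cPM P`. So `2^dc π * #{G} ≤ 4^j (2/N)^j cPM P * (1 / N^a or 1)`, and
`(1/N^a or 1) ≤ 2^(longCycles π) / N^a`: in the second case `2^(longCycles π) ≥ 2^(10 a log N) ≥ exp (a log N) = N^a` (10 log 2 ≥ 1).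
-/

set_option autoImplicit false

namespace Pool.Agent.H38H.VO

open Classical

theorem vo10_c (a N l : ℕ) (hN : 0 < N) (h : 10 * a * Real.log N < l) : (N : ℝ) ^ a ≤ 2 ^ l := by
  have hN0 : (0 : ℝ) < N := Nat.cast_pos.2 hN
  have h1 : (N : ℝ) ^ a = Real.exp (a * Real.log N) := by
    rw [Real.exp_nat_mul, Real.exp_log hN0]
  have h2 : (2 : ℝ) ^ l = Real.exp (l * Real.log 2) := by
    rw [Real.exp_nat_mul, Real.exp_log two_pos]
  rw [h1, h2, Real.exp_le_exp]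
  have h3 : 0 ≤ Real.log N := Real.log_nonneg (by exact_mod_cast hN)
  have h4 := Real.log_two_gt_d9
  have h5 : 0 ≤ (a : ℝ) * Real.log N := mul_nonneg (Nat.cast_nonneg _) h3
  nlinarith

theorem vo10_union {α β : Type} [Finite α] (Ξ : Finset β) (P : α → Prop) (Q : β → α → Prop)
    (h : ∀ x, P x → ∃ b ∈ Ξ, Q b x) : Nat.card {x // P x} ≤ ∑ b ∈ Ξ, Nat.card {x // Q b x} := by
  have := Fintype.ofFinite α
  have e : ∀ R : α → Prop, Nat.card {x // R x} = (Finset.univ.filter R).card := by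
    intro R
    rw [Nat.card_eq_fintype_card, Fintype.card_subtype]
  simp only [e]
  have h1 : Finset.univ.filter P ⊆ Ξ.biUnion fun b => Finset.univ.filter (Q b) := by
    intro x hx
    rw [Finset.mem_filter] at hx
    obtain ⟨b, hb, hbx⟩ := h x hx.2
    rw [Finset.mem_biUnion]
    exact ⟨b, hb, Finset.mem_filter.2 ⟨Finset.mem_univ _, hbx⟩⟩
  exact (Finset.card_le_card h1).trans Finset.card_biUnion_le

theorem vo10_fin {α : Type} [Finite α] : Finite (PM α) := by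
  unfold PM
  infer_instance

theorem per_pi {V : Type} [Fintype V] (a κ : ℕ) (hV : 0 < Fintype.card V) (hev : Even (Fintype.card V))
    (π : Equiv.Perm V) (E : Finset (Sym2 V)) (hE : Marks E) (hE4 : 4 * E.card ≤ Fintype.card V)
    (hP : (∀ v, π v ≠ v) → (longCycles π : ℝ) ≤ 10 * a * Real.log (Fintype.card V) →
      ∀ ξ : Finset (Sym2 (Port π)), Realises π E ξ →
      (Nat.card {R : PM (Port π) // Contains R ξ ∧ Cubic (Gr π R) ∧ Nice κ (Gr π R) E ∧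
          ¬ HC (Gr π R) E} : ℝ) ≤
        (Nat.card {R : PM (Port π) // Contains R ξ} : ℝ) / (Fintype.card V : ℝ) ^ a) :
    (Nat.card {G : SimpleGraph V // (Cubic G ∧ (∀ e ∈ E, e ∈ G.edgeSet) ∧ Nice κ G E ∧ ¬ HC G E) ∧
        Compat G π} : ℝ) ≤
      (8 / (Fintype.card V : ℝ)) ^ (E.card - (piMarks π E).card) * w1 π /
        (Fintype.card V : ℝ) ^ a := by
  set N : ℕ := Fintype.card V with hNdef
  have hN0 : (0 : ℝ) < N := Nat.cast_pos.2 hV
  by_cases hfix : ∀ v, π v ≠ v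
  swap
  · rw [not_forall] at hfix
    obtain ⟨v, hv⟩ := hfix
    rw [not_not] at hv
    have h0 : IsEmpty {G : SimpleGraph V // (Cubic G ∧ (∀ e ∈ E, e ∈ G.edgeSet) ∧ Nice κ G E ∧ ¬ HC G E) ∧
        Compat G π} := by
      refine ⟨fun G => ?_⟩
      have h1 := G.2.2 v
      rw [hv] at h1
      exact G.1.loopless.irrefl v h1
    have h2 : w1 π = 0 := by
      unfold w1
      rw [if_neg]
      intro h
      exact h v hv
    rw [h2, Nat.card_eq_zero.2 (Or.inl h0)]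
    simp
  set j : ℕ := E.card - (piMarks π E).card with hj
  set P : ℕ := N + dc π with hPdef
  have hjN : 4 * j ≤ N := by omega
  have hPe : Even P := hev.add (even_dc π hfix)
  obtain ⟨Ξ, hΞ1, hΞ2, hΞ3⟩ := exists_Xi π E hE
  have hfin : Finite (PM (Port π)) := vo10_fin
  have h1 := graphs_le π (fun G => Cubic G ∧ (∀ e ∈ E, e ∈ G.edgeSet) ∧ Nice κ G E ∧ ¬ HC G E) (fun G hG => hG.1)
  have h2 := vo10_union Ξ (fun R : PM (Port π) => Cubic (Gr π R) ∧ (∀ e ∈ E, e ∈ (Gr π R).edgeSet) ∧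
      Nice κ (Gr π R) E ∧ ¬ HC (Gr π R) E)
    (fun ξ R => Contains R ξ ∧ Cubic (Gr π R) ∧ Nice κ (Gr π R) E ∧ ¬ HC (Gr π R) E)
    (fun R hR => by
      obtain ⟨ξ, hξ, hξR⟩ := hΞ3 R hR.2.1
      exact ⟨ξ, hξ, hξR, hR.1, hR.2.2⟩)
  have h3 := h1.trans h2
  have hcont : ∀ ξ ∈ Ξ, (Nat.card {R : PM (Port π) // Contains R ξ} : ℝ) ≤ (2 / (N : ℝ)) ^ j * (cPM P : ℝ) := by
    intro ξ hξ
    obtain ⟨h4, h5⟩ := card_contains (Port π) ξ (hΞ2 ξ hξ).1.1
    rw [h5, card_port, (hΞ2 ξ hξ).2]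
    exact cPM_sub N P j hV (Nat.le_add_right _ _) hjN hPe
  have hle : ∀ ξ ∈ Ξ, (Nat.card {R : PM (Port π) // Contains R ξ ∧ Cubic (Gr π R) ∧ Nice κ (Gr π R) E ∧
      ¬ HC (Gr π R) E} : ℝ) ≤ (2 / (N : ℝ)) ^ j * (cPM P : ℝ) * (2 ^ longCycles π / (N : ℝ) ^ a) := by
    intro ξ hξ
    have hx := hcont ξ hξ
    by_cases hl : (longCycles π : ℝ) ≤ 10 * a * Real.log (Fintype.card V)
    · refine (hP hfix hl ξ (hΞ2 ξ hξ).1).trans ?_
      have h6 : (1 : ℝ) ≤ 2 ^ longCycles π := one_le_pow₀ (by norm_num)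
      calc (Nat.card {R : PM (Port π) // Contains R ξ} : ℝ) / (N : ℝ) ^ a
          ≤ ((2 / (N : ℝ)) ^ j * (cPM P : ℝ)) / (N : ℝ) ^ a := by gcongr
        _ = ((2 / (N : ℝ)) ^ j * (cPM P : ℝ)) * (1 / (N : ℝ) ^ a) := by ring
        _ ≤ (2 / (N : ℝ)) ^ j * (cPM P : ℝ) * (2 ^ longCycles π / (N : ℝ) ^ a) := by gcongr
    · rw [not_le] at hl
      have h6 : (1 : ℝ) ≤ 2 ^ longCycles π / (N : ℝ) ^ a := by
        rw [le_div_iff₀ (by positivity), one_mul]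
        exact vo10_c a N _ hV hl
      have h7 : (Nat.card {R : PM (Port π) // Contains R ξ ∧ Cubic (Gr π R) ∧ Nice κ (Gr π R) E ∧
          ¬ HC (Gr π R) E} : ℝ) ≤ (Nat.card {R : PM (Port π) // Contains R ξ} : ℝ) := by
        have h8 : Nat.card {R : PM (Port π) // Contains R ξ ∧ Cubic (Gr π R) ∧ Nice κ (Gr π R) E ∧
            ¬ HC (Gr π R) E} ≤ Nat.card {R : PM (Port π) // Contains R ξ} := by
          refine Nat.card_le_card_of_injective (fun R => ⟨R.1, R.2.1⟩) ?_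
          intro R R' h
          exact Subtype.ext (congrArg (fun x => x.1) h)
        exact_mod_cast h8
      have h9 : (0 : ℝ) ≤ (2 / (N : ℝ)) ^ j * (cPM P : ℝ) := by positivity
      calc (Nat.card {R : PM (Port π) // Contains R ξ ∧ Cubic (Gr π R) ∧ Nice κ (Gr π R) E ∧
          ¬ HC (Gr π R) E} : ℝ) ≤ (2 / (N : ℝ)) ^ j * (cPM P : ℝ) * 1 := by
            rw [mul_one]
            exact h7.trans hx
        _ ≤ (2 / (N : ℝ)) ^ j * (cPM P : ℝ) * (2 ^ longCycles π / (N : ℝ) ^ a) := by gcongr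
  have h10 : (2 : ℝ) ^ dc π * (Nat.card {G : SimpleGraph V // (Cubic G ∧ (∀ e ∈ E, e ∈ G.edgeSet) ∧ Nice κ G E ∧
      ¬ HC G E) ∧ Compat G π} : ℝ) ≤ 4 ^ j * ((2 / (N : ℝ)) ^ j * (cPM P : ℝ) * (2 ^ longCycles π / (N : ℝ) ^ a)) := by
    have h11 : ((2 ^ dc π * Nat.card {G : SimpleGraph V // (Cubic G ∧ (∀ e ∈ E, e ∈ G.edgeSet) ∧ Nice κ G E ∧
      ¬ HC G E) ∧ Compat G π} : ℕ) : ℝ) ≤ ((∑ ξ ∈ Ξ, Nat.card {R : PM (Port π) // Contains R ξ ∧ Cubic (Gr π R) ∧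
        Nice κ (Gr π R) E ∧ ¬ HC (Gr π R) E} : ℕ) : ℝ) := by exact_mod_cast h3
    push_cast at h11
    refine h11.trans ((Finset.sum_le_sum hle).trans ?_)
    rw [Finset.sum_const, nsmul_eq_mul]
    have h12 : (Ξ.card : ℝ) ≤ 4 ^ j := by exact_mod_cast hΞ1
    have h9 : (0 : ℝ) ≤ (2 / (N : ℝ)) ^ j * (cPM P : ℝ) * (2 ^ longCycles π / (N : ℝ) ^ a) := by positivity
    exact mul_le_mul_of_nonneg_right h12 h9
  have hw : w1 π = (2 : ℝ) ^ longCycles π * (cPM P : ℝ) / (2 : ℝ) ^ dc π := by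
    unfold w1
    rw [if_pos hfix]
  rw [hw]
  have h2d : (0 : ℝ) < 2 ^ dc π := by positivity
  have h13 : (8 / (N : ℝ)) ^ j * ((2 : ℝ) ^ longCycles π * (cPM P : ℝ) / (2 : ℝ) ^ dc π) / (N : ℝ) ^ a =
      (4 ^ j * ((2 / (N : ℝ)) ^ j * (cPM P : ℝ) * (2 ^ longCycles π / (N : ℝ) ^ a))) / 2 ^ dc π := by
    have h14 : (8 / (N : ℝ)) ^ j = 4 ^ j * (2 / (N : ℝ)) ^ j := by
      rw [← mul_pow]
      congr 1
      ring
    rw [h14]
    ring
  rw [h13, le_div_iff₀ h2d, mul_comm]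
  exact h10

end Pool.Agent.H38H.VO
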