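import Pool.Agent.Lib.H38H.VO.Defs

/-!
Project H38H, chunk VO11 (M).
PURE. `card_agree`: if there is one such `σ₀`, the others are `σ₀ * τ` with `τ` fixing `S` pointwise; these `τ` are the permutations of
`{v // v ∉ S}` (`Equiv.Perm.subtypeEquivSubtypePerm`), `(card V - S.card)!` many.
`card_sigma`: write every `e ∈ F` as `s(a_e, b_e)` (choice; `Marks F`: the `2 F.card` points `a_e, b_e` are distinct, let `S` be their set). If
`Sym2.map σ e = s(v, π v)` then `(σ a_e, σ b_e)` is `(v, π v)` or `(π v, v)`: at most `2 N` possible values, `N = card V`. So the `σ` in question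
are covered by the sets `{σ | σ agrees with g on S}`, `g` running through the `(2N)^(F.card)` possible value functions; apply `card_agree`
to each.
-/

set_option autoImplicit false

namespace Pool.Agent.H38H.VO

open Classical

theorem vo11_union {α β : Type} [Finite α] (Ξ : Finset β) (P : α → Prop) (Q : β → α → Prop)
    (h : ∀ x, P x → ∃ b ∈ Ξ, Q b x) : Nat.card {x // P x} ≤ ∑ b ∈ Ξ, Nat.card {x // Q b x} := by
  have := Fintype.ofFinite α
  have e : ∀ R : α → Prop, Nat.card {x // R x} = (Finset.univ.filter R).card := by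
    intro R
    rw [Nat.card_eq_fintype_card, Fintype.card_subtype]
  simp only [e]
  have h1 : Finset.univ.filter P ⊆ Ξ.biUnion fun b => Finset.univ.filter (Q b) := by
    intro x hx
    rw [Finset.mem_filter] at hx
    obtain ⟨b, hb, hbx⟩ := h x hx.2
    rw [Finset.mem_biUnion]
    exact ⟨b, hb, Finset.mem_filter.2 ⟨Finset.mem_univ _, hbx⟩⟩
  exact (Finset.card_le_card h1).trans Finset.card_biUnion_le

theorem card_agree {V : Type} [Fintype V] (S : Finset V) (g : V → V) :
    Nat.card {σ : Equiv.Perm V // ∀ s ∈ S, σ s = g s} ≤ Nat.factorial (Fintype.card V - S.card) := by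
  rcases isEmpty_or_nonempty {σ : Equiv.Perm V // ∀ s ∈ S, σ s = g s} with h0 | ⟨⟨σ₀, h0⟩⟩
  · rw [Nat.card_eq_zero.2 (Or.inl h0)]
    exact Nat.zero_le _
  · have h1 : Nat.card {σ : Equiv.Perm V // ∀ s ∈ S, σ s = g s} ≤
        Nat.card {f : Equiv.Perm V // ∀ x, ¬ (x ∉ S) → f x = x} := by
      refine Nat.card_le_card_of_injective (fun σ => ⟨σ₀⁻¹ * σ.1, ?_⟩) ?_
      · intro x hx
        rw [not_not] at hx
        rw [Equiv.Perm.mul_apply, σ.2 x hx, ← h0 x hx]
        exact σ₀.symm_apply_apply x
      · intro σ τ h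
        have h2 : σ₀⁻¹ * σ.1 = σ₀⁻¹ * τ.1 := congrArg (fun x => x.1) h
        exact Subtype.ext (mul_left_cancel h2)
    refine h1.trans (le_of_eq ?_)
    rw [← Nat.card_congr (Equiv.Perm.subtypeEquivSubtypePerm fun x => x ∉ S), Nat.card_eq_fintype_card,
      Fintype.card_perm]
    congr 1
    rw [Fintype.card_subtype, ← Finset.card_compl]
    congr 1
    ext x
    simp

theorem card_sigma {V : Type} [Fintype V] (π : Equiv.Perm V) (F : Finset (Sym2 V)) (hF : Marks F) :
    Nat.card {σ : Equiv.Perm V // ∀ e ∈ F, ∃ v, Sym2.map σ e = s(v, π v)} ≤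
      (2 * Fintype.card V) ^ F.card * Nat.factorial (Fintype.card V - 2 * F.card) := by
  obtain ⟨a, b, hab⟩ : ∃ a b : Sym2 V → V, ∀ e, s(a e, b e) = e := by
    refine ⟨fun e => (Quot.out e).1, fun e => (Quot.out e).2, fun e => ?_⟩
    exact Quot.out_eq e
  have hma : ∀ e, a e ∈ e := by
    intro e
    have h := Sym2.mem_mk_left (a e) (b e)
    rwa [hab e] at h
  have hmb : ∀ e, b e ∈ e := by
    intro e
    have h := Sym2.mem_mk_right (a e) (b e)
    rwa [hab e] at h
  set S : Finset V := F.biUnion fun e => {a e, b e} with hS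
  have hSc : S.card = 2 * F.card := by
    rw [hS, Finset.card_biUnion, Finset.sum_const_nat (m := 2)]
    · ring
    · intro e he
      apply Finset.card_pair
      intro h
      apply hF.1 e he
      rw [← hab e, h]
      rfl
    · intro e he f hf hef
      rw [Function.onFun, Finset.disjoint_left]
      intro x hx hx'
      have h1 : x ∈ e := by
        simp only [Finset.mem_insert, Finset.mem_singleton] at hx
        rcases hx with rfl | rfl
        · exact hma e
        · exact hmb e
      have h2 : x ∈ f := by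
        simp only [Finset.mem_insert, Finset.mem_singleton] at hx'
        rcases hx' with h | h
        · rw [h]; exact hma f
        · rw [h]; exact hmb f
      exact hF.2 e he f hf hef x h1 h2
  let p : V × Bool → V × V := fun c => if c.2 then (c.1, π c.1) else (π c.1, c.1)
  have key : ∀ σ : Equiv.Perm V, (∀ e ∈ F, ∃ v, Sym2.map σ e = s(v, π v)) →
      ∃ c : F → V × Bool, ∀ e : F, (σ (a e), σ (b e)) = p (c e) := by
    intro σ hσ
    have h1 : ∀ e : F, ∃ c : V × Bool, (σ (a e), σ (b e)) = p c := by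
      intro e
      obtain ⟨v, hv⟩ := hσ e e.2
      rw [← hab e, Sym2.map_mk, Sym2.eq_iff] at hv
      rcases hv with ⟨h2, h3⟩ | ⟨h2, h3⟩
      · exact ⟨(v, true), by simp only [p, if_true]; rw [h2, h3]⟩
      · refine ⟨(v, false), ?_⟩
        simp only [p, Bool.false_eq_true, if_false]
        rw [h2, h3]
    choose c hc using h1
    exact ⟨c, hc⟩
  have hc : ∀ c : F → V × Bool, Nat.card {σ : Equiv.Perm V // ∀ e : F, (σ (a e), σ (b e)) = p (c e)} ≤
      Nat.factorial (Fintype.card V - 2 * F.card) := by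
    intro c
    rcases isEmpty_or_nonempty {σ : Equiv.Perm V // ∀ e : F, (σ (a e), σ (b e)) = p (c e)} with h1 | ⟨⟨σ₀, h1⟩⟩
    · rw [Nat.card_eq_zero.2 (Or.inl h1)]
      exact Nat.zero_le _
    · have h2 := card_agree S (fun x => σ₀ x)
      rw [hSc] at h2
      have h4 : ∀ σ : {σ : Equiv.Perm V // ∀ e : F, (σ (a e), σ (b e)) = p (c e)}, ∀ x ∈ S, σ.1 x = σ₀ x := by
        intro σ x hx
        rw [hS, Finset.mem_biUnion] at hx
        obtain ⟨e, he, hx⟩ := hx
        have h3 := (σ.2 ⟨e, he⟩).trans (h1 ⟨e, he⟩).symm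
        rw [Prod.mk.injEq] at h3
        simp only [Finset.mem_insert, Finset.mem_singleton] at hx
        rcases hx with rfl | rfl
        · exact h3.1
        · exact h3.2
      refine le_trans (Nat.card_le_card_of_injective (fun σ => ⟨σ.1, h4 σ⟩) ?_) h2
      intro σ τ h
      exact Subtype.ext (congrArg (fun x => x.1) h)
  have h1 := vo11_union (Finset.univ : Finset (F → V × Bool))
    (fun σ : Equiv.Perm V => ∀ e ∈ F, ∃ v, Sym2.map σ e = s(v, π v))
    (fun c σ => ∀ e : F, (σ (a e), σ (b e)) = p (c e))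
    (fun σ hσ => by
      obtain ⟨c, hc⟩ := key σ hσ
      exact ⟨c, Finset.mem_univ _, hc⟩)
  refine h1.trans ?_
  refine (Finset.sum_le_card_nsmul _ _ _ fun c _ => hc c).trans (le_of_eq ?_)
  rw [Finset.card_univ, Fintype.card_fun, Fintype.card_prod, Fintype.card_bool, Fintype.card_coe, smul_eq_mul,
    mul_comm (Fintype.card V) 2]

end Pool.Agent.H38H.VO
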