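import Pool.Agent.Lib.H38H.VO.Defs
import Pool.Agent.Lib.H38H.VO.VO11

/-!
Project H38H, chunk VO12 (M).
Uses `card_sigma` (VO11). N = card V, f = F.card. For every `σ`: reindexing `π ↦ σ⁻¹ * π * σ` gives
`∑ π, [F ⊆ edges of π] w π = ∑ π, [σ F ⊆ edges of π] w π`, where `[σ F ⊆ edges of π]` means `∀ e ∈ F, ∃ v, Sym2.map σ e = s(v, π v)`. Sum over all
`N!` permutations `σ` and exchange the sums: `N! * LHS = ∑ π, w π * #{σ | ..} ≤ (2N)^f (N - 2f)! * ∑ π, w π`. Finally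
`(2N)^f (N-2f)! / N! ≤ (2N)^f (2/N)^(2f) = (8/N)^f` since `N!/(N-2f)! ≥ (N-2f)^(2f) ≥ (N/2)^(2f)` (4f ≤ N).
-/

set_option autoImplicit false

namespace Pool.Agent.H38H.VO

open Classical

theorem VO12_reindex {V : Type} [Fintype V] (w : Equiv.Perm V → ℝ)
    (hw : ∀ σ π : Equiv.Perm V, w (σ * π * σ⁻¹) = w π) (F : Finset (Sym2 V)) (σ : Equiv.Perm V) :
    ∑ π : Equiv.Perm V, (if (∀ e ∈ F, ∃ v, e = s(v, π v)) then w π else 0) =
      ∑ π : Equiv.Perm V, (if (∀ e ∈ F, ∃ v, Sym2.map σ e = s(v, π v)) then w π else 0) := by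
  refine Fintype.sum_equiv (MulAut.conj σ).toEquiv _ _ fun π => ?_
  have e1 : (MulAut.conj σ).toEquiv π = σ * π * σ⁻¹ := rfl
  rw [e1, hw σ π]
  have h : (∀ e ∈ F, ∃ v, e = s(v, π v)) ↔ (∀ e ∈ F, ∃ v, Sym2.map σ e = s(v, (σ * π * σ⁻¹) v)) := by
    refine forall₂_congr fun e _ => ⟨?_, ?_⟩
    · rintro ⟨v, rfl⟩
      refine ⟨σ v, ?_⟩
      simp [Equiv.Perm.mul_apply]
    · rintro ⟨v, hv⟩
      refine ⟨σ⁻¹ v, ?_⟩
      apply Sym2.map.injective σ.injective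
      rw [hv]
      simp [Equiv.Perm.mul_apply]
  simp only [h]

theorem VO12_desc {N f : ℕ} (hN : 4 * f ≤ N) : ((N : ℝ) / 2) ^ (2 * f) ≤ (N.descFactorial (2 * f) : ℝ) := by
  have h1 : ((N + 1 - 2 * f) ^ (2 * f) : ℕ) ≤ N.descFactorial (2 * f) := Nat.pow_sub_le_descFactorial N (2 * f)
  have h2 : (N : ℝ) / 2 ≤ ((N + 1 - 2 * f : ℕ) : ℝ) := by
    rw [Nat.cast_sub (by omega)]
    push_cast
    have : (4 * f : ℝ) ≤ N := by exact_mod_cast hN
    linarith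
  calc ((N : ℝ) / 2) ^ (2 * f) ≤ ((N + 1 - 2 * f : ℕ) : ℝ) ^ (2 * f) := pow_le_pow_left₀ (by positivity) h2 _
    _ = (((N + 1 - 2 * f) ^ (2 * f) : ℕ) : ℝ) := by push_cast; ring
    _ ≤ _ := by exact_mod_cast h1

theorem sum_class {V : Type} [Fintype V] (w : Equiv.Perm V → ℝ) (hw0 : ∀ π, 0 ≤ w π)
    (hw : ∀ σ π : Equiv.Perm V, w (σ * π * σ⁻¹) = w π) (F : Finset (Sym2 V)) (hF : Marks F)
    (hN : 4 * F.card ≤ Fintype.card V) (hV : 0 < Fintype.card V) :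
    ∑ π : Equiv.Perm V, (if (∀ e ∈ F, ∃ v, e = s(v, π v)) then w π else 0) ≤
      (8 / (Fintype.card V : ℝ)) ^ F.card * ∑ π : Equiv.Perm V, w π := by
  obtain ⟨N, hNd⟩ : ∃ N, N = Fintype.card V := ⟨_, rfl⟩
  obtain ⟨f, hfd⟩ : ∃ f, f = F.card := ⟨_, rfl⟩
  obtain ⟨L, hL⟩ : ∃ L, L = ∑ π : Equiv.Perm V, (if (∀ e ∈ F, ∃ v, e = s(v, π v)) then w π else 0) := ⟨_, rfl⟩
  obtain ⟨W, hW⟩ : ∃ W, W = ∑ π : Equiv.Perm V, w π := ⟨_, rfl⟩
  have hW0 : 0 ≤ W := by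
    rw [hW]
    exact Finset.sum_nonneg fun π _ => hw0 π
  rw [← hL, ← hW, ← hNd, ← hfd]
  rw [← hNd, ← hfd] at hN
  rw [← hNd] at hV
  have h1 : (N.factorial : ℝ) * L ≤ ((2 * N) ^ f * (N - 2 * f).factorial : ℕ) * W := by
    have h2 : (N.factorial : ℝ) * L = ∑ σ : Equiv.Perm V, ∑ π : Equiv.Perm V,
        (if (∀ e ∈ F, ∃ v, Sym2.map σ e = s(v, π v)) then w π else 0) := by
      rw [Finset.sum_congr rfl fun σ _ => (VO12_reindex w hw F σ).symm, ← hL, Finset.sum_const, nsmul_eq_mul,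
        Finset.card_univ, Fintype.card_perm, ← hNd]
    rw [h2, Finset.sum_comm, hW, Finset.mul_sum]
    refine Finset.sum_le_sum fun π _ => ?_
    have h3 : ∑ σ : Equiv.Perm V, (if (∀ e ∈ F, ∃ v, Sym2.map σ e = s(v, π v)) then w π else 0) =
        (Nat.card {σ : Equiv.Perm V // ∀ e ∈ F, ∃ v, Sym2.map σ e = s(v, π v)} : ℝ) * w π := by
      rw [← Finset.sum_filter, Finset.sum_const, nsmul_eq_mul, Nat.card_eq_fintype_card, Fintype.card_subtype]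
    rw [h3]
    refine mul_le_mul_of_nonneg_right ?_ (hw0 π)
    have h4 := card_sigma π F hF
    rw [← hNd, ← hfd] at h4
    exact_mod_cast h4
  have h5 : (N.factorial : ℝ) = (N - 2 * f).factorial * N.descFactorial (2 * f) := by
    rw [← Nat.factorial_mul_descFactorial (n := N) (k := 2 * f) (by omega)]
    push_cast
    ring
  have h6 : (0 : ℝ) < (N - 2 * f).factorial := by exact_mod_cast Nat.factorial_pos _
  have h7 : (N.descFactorial (2 * f) : ℝ) * L ≤ (2 * N) ^ f * W := by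
    rw [h5] at h1
    push_cast at h1
    have h8 : ((N - 2 * f).factorial : ℝ) * ((N.descFactorial (2 * f) : ℝ) * L) ≤
        (N - 2 * f).factorial * ((2 * N) ^ f * W) := by
      calc _ = (N - 2 * f).factorial * (N.descFactorial (2 * f) : ℝ) * L := by ring
        _ ≤ _ := h1
        _ = _ := by ring
    exact le_of_mul_le_mul_left h8 h6
  have hNR : (0 : ℝ) < N := by exact_mod_cast hV
  have h9 := VO12_desc hN
  have h10 : (0 : ℝ) < ((N : ℝ) / 2) ^ (2 * f) := by positivity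
  have hL0 : 0 ≤ L := by
    rw [hL]
    refine Finset.sum_nonneg fun π _ => ?_
    split_ifs
    · exact hw0 π
    · exact le_rfl
  have h11 : ((N : ℝ) / 2) ^ (2 * f) * L ≤ (2 * N) ^ f * W :=
    (mul_le_mul_of_nonneg_right h9 hL0).trans h7
  have h12 : (2 * (N : ℝ)) ^ f = ((N : ℝ) / 2) ^ (2 * f) * (8 / N) ^ f := by
    rw [pow_mul, ← mul_pow]
    congr 1
    field_simp
    ring
  rw [h12, mul_assoc] at h11
  exact le_of_mul_le_mul_left h11 h10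

end Pool.Agent.H38H.VO
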