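import Pool.Agent.Lib.H38H.VO.Defs

/-!
Project H38H, chunk VO14 (M).
`longCycles π` = number of `c ∈ π.cycleFactorsFinset` with `3 ≤ c.support.card` (`Equiv.Perm.cycleType_def`). A point `v` in the
support of such a `c` satisfies `π (π v) ≠ v` (otherwise the cycle has 2 elements), so it is a point of `{v // ¬ IsD π v}`. Map `c` to the class of
such a point under `SameCycle (cPart π)`: injective, since `SameCycle (cPart π) x y` implies `SameCycle π x y` (powers of `cPart π` are
restrictions of powers of `π`), and two different factors have supports in different cycles. So `longCycles π ≤ cyc (cPart π)`.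
`w1_conj`: `cycleType`, `dc` and the absence of fixed points are invariant under conjugation (`Equiv.Perm.cycleType_conj`; `IsD (σ π σ⁻¹) (σ v) ↔
IsD π v`).
-/

set_option autoImplicit false

namespace Pool.Agent.H38H.VO

open Classical

theorem VO14_pt {V : Type} [Fintype V] [DecidableEq V] (π : Equiv.Perm V)
    (c : {c : Equiv.Perm V // c ∈ π.cycleFactorsFinset ∧ 3 ≤ c.support.card}) :
    ∃ v : {v // ¬ IsD π v}, v.1 ∈ c.1.support := by
  obtain ⟨c, hc, h3⟩ := c
  have hne : c.support.Nonempty := Finset.card_pos.1 (by omega)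
  obtain ⟨v, hv⟩ := hne
  obtain ⟨hcy, hcf⟩ := Equiv.Perm.mem_cycleFactorsFinset_iff.1 hc
  refine ⟨⟨v, ?_⟩, hv⟩
  intro hD
  unfold IsD at hD
  rw [← hcf v hv, ← hcf (c v) (Equiv.Perm.apply_mem_support.2 hv)] at hD
  have hvne : c v ≠ v := Equiv.Perm.mem_support.1 hv
  have hs := hcy.eq_swap_of_apply_apply_eq_self hvne hD
  rw [hs, Equiv.Perm.card_support_swap hvne.symm] at h3
  omega

theorem longCycles_le {V : Type} [Fintype V] [DecidableEq V] (π : Equiv.Perm V) :
    longCycles π ≤ cyc (cPart π) := by
  have h1 : longCycles π =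
      Nat.card {c : Equiv.Perm V // c ∈ π.cycleFactorsFinset ∧ 3 ≤ c.support.card} := by
    unfold longCycles
    rw [Equiv.Perm.cycleType_def, Multiset.filter_map, Multiset.card_map]
    rw [Nat.card_eq_fintype_card, Fintype.card_subtype]
    rw [← Finset.filter_val, ← Finset.card_def]
    congr 1
    ext c
    simp only [Finset.mem_filter, Function.comp_apply, Finset.mem_univ, true_and]
  rw [h1]
  unfold cyc
  apply Nat.card_le_card_of_injective
    (fun c => (Quotient.mk (Equiv.Perm.SameCycle.setoid (cPart π)) (VO14_pt π c).choose))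
  intro c c' h
  have h2 : Equiv.Perm.SameCycle (cPart π) (VO14_pt π c).choose (VO14_pt π c').choose :=
    Quotient.exact h
  have h3 : Equiv.Perm.SameCycle π (VO14_pt π c).choose.1 (VO14_pt π c').choose.1 :=
    Equiv.Perm.sameCycle_subtypePerm.1 h2
  apply Subtype.ext
  rw [Equiv.Perm.cycle_is_cycleOf (VO14_pt π c).choose_spec c.2.1,
    Equiv.Perm.cycle_is_cycleOf (VO14_pt π c').choose_spec c'.2.1]
  exact h3.cycleOf_eq

theorem w1_conj {V : Type} [Fintype V] (σ π : Equiv.Perm V) : w1 (σ * π * σ⁻¹) = w1 π := by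
  have ha : ∀ v, (σ * π * σ⁻¹) (σ v) = σ (π v) := by
    intro v
    simp
  have h1 : (∀ v, (σ * π * σ⁻¹) v ≠ v) ↔ ∀ v, π v ≠ v := by
    constructor
    · intro h v hv
      apply h (σ v)
      rw [ha, hv]
    · intro h v hv
      obtain ⟨u, rfl⟩ := σ.surjective v
      rw [ha] at hv
      exact h u (σ.injective hv)
  have h2 : longCycles (σ * π * σ⁻¹) = longCycles π := by
    unfold longCycles
    rw [Equiv.Perm.cycleType_conj]
  have h3 : dc (σ * π * σ⁻¹) = dc π := by
    unfold dc
    apply Nat.card_congr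
    refine (σ.subtypeEquiv ?_).symm
    intro v
    unfold IsD
    rw [ha, ha]
    exact σ.injective.eq_iff.symm
  unfold w1
  rw [h2, h3]
  simp only [h1]

end Pool.Agent.H38H.VO
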