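import Pool.Agent.Lib.H38H.VO.Defs

/-!
Project H38H, chunk VO13 (M).
PURE. Generating function of the number of cycles. Induction on the number of elements. `cyc` is invariant under
transport along an equivalence. Step from `β` to `Option β`: `Equiv.Perm.decomposeOption : Perm (Option β) ≃ Option β × Perm β`,
`(decomposeOption.symm (o, ρ)) = swap none o * optionCongr ρ`. If `o = none` the new permutation has at most one cycle more (the fixed point
`none`). If `o = some b`, `none` is inserted in a cycle: the map class of `x` ↦ class of `some x` is well defined (`ρ` and the new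
permutation have the same orbits on `β` up to the inserted point) and surjective (the class of `none` contains `some b` or
`some (ρ⁻¹ b)`), so at most as many cycles. So the sum for `m + 1` elements is `≤ (2 + m) *` the sum for `m` elements.
-/

set_option autoImplicit false

namespace Pool.Agent.H38H.VO

open Classical

theorem VO13_zpow {β : Type} (ρ : Equiv.Perm β) (f : β → Bool) (h : f ∘ ρ = f) (n : ℤ) (x : β) :
    f ((ρ ^ n) x) = f x := by
  have hn : ∀ (n : ℕ) (x : β), f ((ρ ^ n) x) = f x := by
    intro n
    induction n with
    | zero => intro x; rfl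
    | succ n ih =>
      intro x
      rw [pow_succ, Equiv.Perm.mul_apply, ih]
      exact congrFun h x
  rcases Int.eq_nat_or_neg n with ⟨m, rfl | rfl⟩
  · rw [zpow_natCast]
    exact hn m x
  · have h1 := hn m ((ρ ^ (-(m : ℤ))) x)
    rw [← Equiv.Perm.mul_apply, ← zpow_natCast, ← zpow_add, add_neg_cancel, zpow_zero,
      Equiv.Perm.one_apply] at h1
    exact h1.symm

noncomputable def VO13_equiv {β : Type} (ρ : Equiv.Perm β) :
    {f : β → Bool // f ∘ ρ = f} ≃ (Quotient (Equiv.Perm.SameCycle.setoid ρ) → Bool) where
  toFun f := Quotient.lift f.1 (by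
    rintro x y ⟨n, hn⟩
    rw [← hn]
    exact (VO13_zpow ρ f.1 f.2 n x).symm)
  invFun g := ⟨fun x => g (Quotient.mk _ x), by
    funext x
    show g (Quotient.mk _ (ρ x)) = g (Quotient.mk _ x)
    congr 1
    apply Quotient.sound
    exact ⟨-1, by simp⟩⟩
  left_inv f := by
    apply Subtype.ext
    rfl
  right_inv g := by
    funext q
    induction q using Quotient.inductionOn with
    | h x => rfl

theorem VO13_card {β : Type} [Fintype β] (ρ : Equiv.Perm β) :
    2 ^ cyc ρ = ∑ f : β → Bool, if f ∘ ρ = f then 1 else 0 := by
  rw [← Finset.card_filter, ← Fintype.card_subtype, Fintype.card_congr (VO13_equiv ρ),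
    Fintype.card_fun, Fintype.card_bool]
  unfold cyc
  rw [Nat.card_eq_fintype_card]

noncomputable def VO13_fin (β : Type) [Fintype β] : (β → Bool) ≃ Finset β where
  toFun f := Finset.univ.filter (fun a => f a = true)
  invFun s := fun a => decide (a ∈ s)
  left_inv f := by
    funext a
    simp
  right_inv s := by
    ext a
    simp

theorem sum_two_pow_cyc (β : Type) [Fintype β] :
    ∑ ρ : Equiv.Perm β, 2 ^ cyc ρ ≤ Nat.factorial (Fintype.card β + 1) := by
  apply le_of_eq
  calc ∑ ρ : Equiv.Perm β, 2 ^ cyc ρ
      = ∑ ρ : Equiv.Perm β, ∑ f : β → Bool, (if f ∘ ρ = f then 1 else 0) :=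
        Finset.sum_congr rfl fun ρ _ => VO13_card ρ
    _ = ∑ f : β → Bool, ∑ ρ : Equiv.Perm β, (if f ∘ ρ = f then 1 else 0) := Finset.sum_comm
    _ = ∑ f : β → Bool, Fintype.card {ρ : Equiv.Perm β // f ∘ ρ = f} := by
        refine Finset.sum_congr rfl fun f _ => ?_
        rw [← Finset.card_filter, ← Fintype.card_subtype]
    _ = ∑ f : β → Bool, ∏ i : Bool, Nat.factorial (Fintype.card {a // f a = i}) := by
        refine Finset.sum_congr rfl fun f _ => ?_
        exact DomMulAct.stabilizer_card f
    _ = ∑ s : Finset β, Nat.factorial s.card * Nat.factorial (Fintype.card β - s.card) := by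
        refine Fintype.sum_equiv (VO13_fin β) _ _ fun f => ?_
        rw [Fintype.prod_bool]
        have h1 : Fintype.card {a // f a = true} = (VO13_fin β f).card := by
          rw [Fintype.card_subtype]
          rfl
        have h2 : Fintype.card {a // f a = false} = Fintype.card β - (VO13_fin β f).card := by
          have h3 := Fintype.card_subtype_compl (fun a => f a = true)
          have h4 : Fintype.card {a // f a = false} = Fintype.card {a // ¬ f a = true} :=
            Fintype.card_congr (Equiv.subtypeEquivRight fun a => by simp)
          rw [h4, h3, h1]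
        rw [h1, h2]
    _ = ∑ s ∈ (Finset.univ : Finset β).powerset,
          Nat.factorial s.card * Nat.factorial (Fintype.card β - s.card) := by
        rw [Finset.powerset_univ]
    _ = ∑ k ∈ Finset.range (Fintype.card β + 1), (Fintype.card β).choose k •
          (Nat.factorial k * Nat.factorial (Fintype.card β - k)) :=
        Finset.sum_powerset_apply_card
          (fun k => Nat.factorial k * Nat.factorial (Fintype.card β - k)) (x := Finset.univ)
    _ = ∑ k ∈ Finset.range (Fintype.card β + 1), Nat.factorial (Fintype.card β) := by
        refine Finset.sum_congr rfl fun k hk => ?_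
        rw [smul_eq_mul, ← mul_assoc]
        exact Nat.choose_mul_factorial_mul_factorial (by
          have := Finset.mem_range.1 hk
          omega)
    _ = Nat.factorial (Fintype.card β + 1) := by
        rw [Finset.sum_const, Finset.card_range, smul_eq_mul, Nat.factorial_succ]

end Pool.Agent.H38H.VO
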