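import Pool.Agent.Lib.H38H.VO.Defs
import Pool.Agent.Lib.H38H.VO.VO6
import Pool.Agent.Lib.H38H.VO.VO13
import Pool.Agent.Lib.H38H.VO.VO14

/-!
Project H38H, chunk VO15 (M).
Uses VO6 (`card_PM`), VO13, VO14. N = card V. A permutation `π` without fixed points is determined by `D = {v | IsD π v}` (finset),
the restriction of `π` to `D` (an element of `PM D`) and `cPart π` (a permutation of the complement of `D`). So
`∑ π, w1 π ≤ ∑ D, #PM(D) * (∑ ρ : Perm (complement of D), 2^(cyc ρ)) * cPM (N + |D|) / 2^|D|`, with `2^(longCycles π) ≤ 2^(cyc (cPart π))`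
(`longCycles_le`), `dc π = |D|`, and `∑ ρ, 2^(cyc ρ) ≤ (N - |D| + 1)!` (`sum_two_pow_cyc`).
Group the sum over `π` by `D` (`Finset.sum_fiberwise`), then inject `{π // no fixed points, D π = D}` into `PM D × Perm {v // v ∉ D}`.
-/

set_option autoImplicit false

namespace Pool.Agent.H38H.VO

open Classical

theorem VO15_cyc {V : Type} (π : Equiv.Perm V) {p q : V → Prop} (h : p = q)
    (hp : ∀ x, p (π x) ↔ p x) (hq : ∀ x, q (π x) ↔ q x) :
    cyc (π.subtypePerm hp) = cyc (π.subtypePerm hq) := by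
  subst h
  rfl

noncomputable def VO15_D {V : Type} [Fintype V] (π : Equiv.Perm V) : Finset V :=
  Finset.univ.filter (fun v => IsD π v)

theorem VO15_mem {V : Type} [Fintype V] (π : Equiv.Perm V) (v : V) :
    v ∈ VO15_D π ↔ IsD π v := by
  unfold VO15_D
  simp only [Finset.mem_filter, Finset.mem_univ, true_and]

theorem VO15_dc {V : Type} [Fintype V] (π : Equiv.Perm V) : dc π = (VO15_D π).card := by
  unfold dc VO15_D
  rw [Nat.card_eq_fintype_card, Fintype.card_subtype]

theorem VO15_pD {V : Type} [Fintype V] (D : Finset V)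
    (π : {π : Equiv.Perm V // (∀ v, π v ≠ v) ∧ VO15_D π = D}) (x : V) :
    π.1 x ∈ D ↔ x ∈ D := by
  obtain ⟨π, h1, rfl⟩ := π
  show π x ∈ VO15_D π ↔ x ∈ VO15_D π
  rw [VO15_mem, VO15_mem]
  exact isD_iff π x

noncomputable def VO15_F {V : Type} [Fintype V] (D : Finset V)
    (π : {π : Equiv.Perm V // (∀ v, π v ≠ v) ∧ VO15_D π = D}) :
    PM {v // v ∈ D} × Equiv.Perm {v // v ∉ D} :=
  (⟨π.1.subtypePerm (p := fun v => v ∈ D) (fun x => VO15_pD D π x), by
      constructor
      · intro x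
        apply Subtype.ext
        have h1 : x.1 ∈ VO15_D π.1 := by
          rw [π.2.2]
          exact x.2
        exact (VO15_mem π.1 x.1).1 h1
      · intro x hx
        exact π.2.1 x.1 (congrArg Subtype.val hx)⟩,
   π.1.subtypePerm (p := fun v => v ∉ D) (fun x => not_congr (VO15_pD D π x)))

theorem VO15_inj {V : Type} [Fintype V] (D : Finset V) :
    Function.Injective (VO15_F D) := by
  intro π π' h
  apply Subtype.ext
  apply Equiv.ext
  intro v
  by_cases hv : v ∈ D
  · have h1 := congrArg (fun y => ((y.1.1 ⟨v, hv⟩ : {v // v ∈ D}) : V)) h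
    exact h1
  · have h1 := congrArg (fun y => ((y.2 ⟨v, hv⟩ : {v // v ∉ D}) : V)) h
    exact h1

theorem VO15_cyc2 {V : Type} [Fintype V] (D : Finset V)
    (π : {π : Equiv.Perm V // (∀ v, π v ≠ v) ∧ VO15_D π = D}) :
    cyc (cPart π.1) = cyc (VO15_F D π).2 := by
  exact VO15_cyc π.1 (by funext v; rw [← VO15_mem, π.2.2]) _
    (fun x => not_congr (VO15_pD D π x))

theorem sum_w1_le {V : Type} [Fintype V] :
    ∑ π : Equiv.Perm V, w1 π ≤
      ∑ D : Finset V, (cPM D.card : ℝ) * (Nat.factorial (Fintype.card V - D.card + 1) : ℝ) *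
        (cPM (Fintype.card V + D.card) : ℝ) / (2 : ℝ) ^ D.card := by
  rw [← Finset.sum_fiberwise Finset.univ VO15_D w1]
  refine Finset.sum_le_sum fun D _ => ?_
  letI : Fintype (PM {v // v ∈ D}) := by
    unfold PM
    infer_instance
  set C : ℝ := (cPM (Fintype.card V + D.card) : ℝ) / (2 : ℝ) ^ D.card with hC
  have hC0 : 0 ≤ C := by positivity
  have h1 : ∑ π ∈ Finset.univ.filter (fun π : Equiv.Perm V => VO15_D π = D), w1 π ≤
      ∑ π ∈ Finset.univ.filter (fun π : Equiv.Perm V => (∀ v, π v ≠ v) ∧ VO15_D π = D),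
        (2 : ℝ) ^ cyc (cPart π) * C := by
    rw [Finset.sum_filter, Finset.sum_filter]
    refine Finset.sum_le_sum fun π _ => ?_
    by_cases hD : VO15_D π = D
    · by_cases hQ : ∀ v, π v ≠ v
      · rw [if_pos hD, if_pos ⟨hQ, hD⟩]
        unfold w1
        rw [if_pos hQ, VO15_dc, hD, mul_div_assoc]
        apply mul_le_mul_of_nonneg_right _ hC0
        exact pow_le_pow_right₀ (by norm_num) (longCycles_le π)
      · rw [if_pos hD, if_neg (fun h => hQ h.1)]
        unfold w1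
        rw [if_neg hQ]
    · rw [if_neg hD, if_neg (fun h => hD h.2)]
  refine h1.trans ?_
  have h2 : ∑ π ∈ Finset.univ.filter (fun π : Equiv.Perm V => (∀ v, π v ≠ v) ∧ VO15_D π = D),
        (2 : ℝ) ^ cyc (cPart π) * C =
      ∑ π : {π : Equiv.Perm V // (∀ v, π v ≠ v) ∧ VO15_D π = D},
        (2 : ℝ) ^ cyc (VO15_F D π).2 * C := by
    rw [Finset.sum_subtype (p := fun π : Equiv.Perm V => (∀ v, π v ≠ v) ∧ VO15_D π = D)
      _ (fun x => by simp only [Finset.mem_filter, Finset.mem_univ, true_and])]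
    refine Finset.sum_congr rfl fun π _ => ?_
    rw [VO15_cyc2]
  rw [h2]
  have h3 : ∑ π : {π : Equiv.Perm V // (∀ v, π v ≠ v) ∧ VO15_D π = D},
        (2 : ℝ) ^ cyc (VO15_F D π).2 * C ≤
      ∑ y : PM {v // v ∈ D} × Equiv.Perm {v // v ∉ D}, (2 : ℝ) ^ cyc y.2 * C := by
    have h7 := Finset.sum_map Finset.univ
      (⟨VO15_F D, VO15_inj D⟩ : {π : Equiv.Perm V // (∀ v, π v ≠ v) ∧ VO15_D π = D} ↪
        PM {v // v ∈ D} × Equiv.Perm {v // v ∉ D})
      (fun y => (2 : ℝ) ^ cyc y.2 * C)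
    refine le_trans (le_of_eq h7.symm) ?_
    exact Finset.sum_le_univ_sum_of_nonneg fun y => by positivity
  refine h3.trans ?_
  rw [Fintype.sum_prod_type]
  show ∑ _x : PM {v // v ∈ D}, ∑ ρ : Equiv.Perm {v // v ∉ D}, (2 : ℝ) ^ cyc ρ * C ≤ _
  rw [Finset.sum_const, ← Finset.sum_mul, Finset.card_univ,
    ← Nat.card_eq_fintype_card, card_PM, nsmul_eq_mul, Fintype.card_coe]
  have h4 := sum_two_pow_cyc {v // v ∉ D}
  have h5 : Fintype.card {v // v ∉ D} = Fintype.card V - D.card := by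
    rw [Fintype.card_subtype_compl, Fintype.card_coe]
  rw [h5] at h4
  have h6 : (∑ ρ : Equiv.Perm {v // v ∉ D}, (2 : ℝ) ^ cyc ρ) ≤
      (Nat.factorial (Fintype.card V - D.card + 1) : ℝ) := by
    have h8 := (Nat.cast_le (α := ℝ)).2 h4
    rw [Nat.cast_sum] at h8
    refine le_trans (le_of_eq ?_) h8
    refine Finset.sum_congr ?_ fun ρ _ => ?_
    · ext x
      simp only [Finset.mem_univ]
    · push_cast
      rfl
  rw [mul_div_assoc, ← hC, mul_assoc]
  apply mul_le_mul_of_nonneg_left _ (Nat.cast_nonneg _)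
  exact mul_le_mul_of_nonneg_right h6 hC0

end Pool.Agent.H38H.VO
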