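import Pool.Agent.Lib.H38H.VO.Defs

/-!
Project H38H, chunk VO16 (M).
PURE, numerical. N = 2n = card V. Group by the size of `D`: `Finset.sum_powerset_apply_card` (with `Finset.powerset_univ`): the sum is
`∑ i ∈ range (N+1), C(N,i) cPM(i) (N-i+1)! cPM(N+i) / 2^i`; odd `i` give 0; `i = 2k`:
`C(N,2k) (2k-1)!! (N-2k+1)! = N! (N-2k+1) / (2^k k!) ≤ (N+1) N! / (2^k k!)` (as `(2k)! = 2^k k! (2k-1)!!`), and
`(N+2k-1)!! ≤ (N-1)!! 2^k (n+k)!/n!` (induction on k: `N+2k+1 ≤ 2 (n+k+1)`). So the term is `≤ (N+1) N! (N-1)!! C(n+k,k) / 4^k`, and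
`∑_k C(n+k,k) 4^(-k) ≤ (4/3)^(n+1)` (partial sums of `(1-x)^(-(n+1))`, x = 1/4).
-/

set_option autoImplicit false

namespace Pool.Agent.H38H.VO

open Classical

/-- partial sums -/
noncomputable def vo16_S (n m : ℕ) : ℝ := ∑ k ∈ Finset.range m, ((n + k).choose k : ℝ) * (1 / 4 : ℝ) ^ k

theorem vo16_S_mono (n m : ℕ) : vo16_S n m ≤ vo16_S n (m + 1) := by
  unfold vo16_S
  rw [Finset.sum_range_succ]
  have : (0 : ℝ) ≤ ((n + m).choose m : ℝ) * (1 / 4 : ℝ) ^ m := by positivity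
  linarith

theorem vo16_S_rec (n m : ℕ) : vo16_S (n + 1) (m + 1) = vo16_S n (m + 1) + (1 / 4) * vo16_S (n + 1) m := by
  unfold vo16_S
  rw [Finset.sum_range_succ' (fun k => ((n + 1 + k).choose k : ℝ) * (1 / 4 : ℝ) ^ k),
    Finset.sum_range_succ' (fun k => ((n + k).choose k : ℝ) * (1 / 4 : ℝ) ^ k)]
  have h : ∀ k ∈ Finset.range m, (((n + 1) + (k + 1)).choose (k + 1) : ℝ) * (1 / 4 : ℝ) ^ (k + 1) =
      ((n + (k + 1)).choose (k + 1) : ℝ) * (1 / 4 : ℝ) ^ (k + 1) +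
        (1 / 4) * ((((n + 1) + k).choose k : ℝ) * (1 / 4 : ℝ) ^ k) := by
    intro k _
    have e : (n + 1) + (k + 1) = ((n + 1) + k) + 1 := by ring
    rw [e, Nat.choose_succ_succ]
    have e2 : n + (k + 1) = (n + 1) + k := by ring
    rw [e2]
    push_cast
    ring
  rw [Finset.sum_congr rfl h, Finset.sum_add_distrib, ← Finset.mul_sum]
  simp
  ring

theorem vo16_S_le (n m : ℕ) : vo16_S n m ≤ (4 / 3 : ℝ) ^ (n + 1) := by
  induction n generalizing m with
  | zero =>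
    have h : vo16_S 0 m = ∑ k ∈ Finset.range m, (1 / 4 : ℝ) ^ k := by
      unfold vo16_S
      apply Finset.sum_congr rfl
      intro k _
      simp
    rw [h, geom_sum_eq (by norm_num)]
    rw [div_le_iff_of_neg (by norm_num)]
    norm_num
  | succ n ih =>
    cases m with
    | zero =>
      have : vo16_S (n + 1) 0 = 0 := by simp [vo16_S]
      rw [this]
      positivity
    | succ m =>
      have h1 := vo16_S_rec n m
      have h2 := vo16_S_mono (n + 1) m
      have h3 := ih (m + 1)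
      rw [pow_succ]
      linarith

theorem vo16_cPM_succ (m : ℕ) : cPM (2 * (m + 1)) = (2 * m + 1) * cPM (2 * m) := by
  unfold cPM
  have h1 : 2 * (m + 1) % 2 = 0 := by omega
  have h2 : 2 * m % 2 = 0 := by omega
  rw [if_pos h1, if_pos h2]
  cases m with
  | zero => rfl
  | succ m =>
    have e1 : 2 * (m + 1 + 1) - 1 = (2 * m + 1) + 2 := by omega
    have e2 : 2 * (m + 1) - 1 = 2 * m + 1 := by omega
    rw [e1, e2, Nat.doubleFactorial_add_two]
    ring

theorem vo16_cPM_odd (m : ℕ) : cPM (2 * m + 1) = 0 := by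
  unfold cPM
  rw [if_neg (by omega)]

theorem vo16_cPM_fact (k : ℕ) : cPM (2 * k) * (2 ^ k * Nat.factorial k) = Nat.factorial (2 * k) := by
  induction k with
  | zero => rfl
  | succ k ih =>
    rw [vo16_cPM_succ, Nat.factorial_succ, show 2 * (k + 1) = 2 * k + 1 + 1 by ring, Nat.factorial_succ,
      Nat.factorial_succ, ← ih]
    ring

theorem vo16_B (n k : ℕ) : cPM (2 * (n + k)) * Nat.factorial n ≤ cPM (2 * n) * 2 ^ k * Nat.factorial (n + k) := by
  induction k with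
  | zero => simp
  | succ k ih =>
    rw [← Nat.add_assoc, vo16_cPM_succ, Nat.factorial_succ (n + k)]
    calc (2 * (n + k) + 1) * cPM (2 * (n + k)) * Nat.factorial n
        = (2 * (n + k) + 1) * (cPM (2 * (n + k)) * Nat.factorial n) := by ring
      _ ≤ (2 * (n + k + 1)) * (cPM (2 * n) * 2 ^ k * Nat.factorial (n + k)) :=
          Nat.mul_le_mul (by omega) ih
      _ = cPM (2 * n) * 2 ^ (k + 1) * ((n + k + 1) * Nat.factorial (n + k)) := by ring

theorem vo16_A (n k : ℕ) (hk : k ≤ n) :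
    (2 * n).choose (2 * k) * cPM (2 * k) * Nat.factorial (2 * n - 2 * k + 1) * (2 ^ k * Nat.factorial k) ≤
      (2 * n + 1) * Nat.factorial (2 * n) := by
  have h1 := vo16_cPM_fact k
  have h2 := Nat.choose_mul_factorial_mul_factorial (show 2 * k ≤ 2 * n by omega)
  rw [Nat.factorial_succ (2 * n - 2 * k)]
  calc (2 * n).choose (2 * k) * cPM (2 * k) * ((2 * n - 2 * k + 1) * Nat.factorial (2 * n - 2 * k)) *
        (2 ^ k * Nat.factorial k)
      = (2 * n - 2 * k + 1) * ((2 * n).choose (2 * k) * (cPM (2 * k) * (2 ^ k * Nat.factorial k)) *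
          Nat.factorial (2 * n - 2 * k)) := by ring
    _ = (2 * n - 2 * k + 1) * Nat.factorial (2 * n) := by rw [h1, h2]
    _ ≤ (2 * n + 1) * Nat.factorial (2 * n) := Nat.mul_le_mul_right _ (by omega)

theorem vo16_term (n k : ℕ) (hk : k ≤ n) :
    ((2 * n).choose (2 * k) : ℝ) * ((cPM (2 * k) : ℝ) * (Nat.factorial (2 * n - 2 * k + 1) : ℝ) *
        (cPM (2 * n + 2 * k) : ℝ) / (2 : ℝ) ^ (2 * k)) ≤
      (2 * n + 1 : ℝ) * (Nat.factorial (2 * n) : ℝ) * (cPM (2 * n) : ℝ) *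
        (((n + k).choose k : ℝ) * (1 / 4 : ℝ) ^ k) := by
  have hA : (((2 * n).choose (2 * k) * cPM (2 * k) * Nat.factorial (2 * n - 2 * k + 1) *
      (2 ^ k * Nat.factorial k) : ℕ) : ℝ) ≤ (((2 * n + 1) * Nat.factorial (2 * n) : ℕ) : ℝ) := by
    exact_mod_cast vo16_A n k hk
  have hB : ((cPM (2 * (n + k)) * Nat.factorial n : ℕ) : ℝ) ≤
      ((cPM (2 * n) * 2 ^ k * Nat.factorial (n + k) : ℕ) : ℝ) := by
    exact_mod_cast vo16_B n k
  have hC : (((n + k).choose k * Nat.factorial k * Nat.factorial n : ℕ) : ℝ) =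
      ((Nat.factorial (n + k) : ℕ) : ℝ) := by
    have := Nat.choose_mul_factorial_mul_factorial (show k ≤ n + k by omega)
    rw [Nat.add_sub_cancel] at this
    exact_mod_cast this
  push_cast at hA hB hC
  have e : 2 * n + 2 * k = 2 * (n + k) := by ring
  rw [e]
  have h2k : (2 : ℝ) ^ (2 * k) = 2 ^ k * 2 ^ k := by rw [two_mul, pow_add]
  have h4k : (1 / 4 : ℝ) ^ k = 1 / (2 ^ k * 2 ^ k) := by
    rw [one_div_pow, ← mul_pow]
    norm_num
  rw [h2k, h4k]
  have p2 : (0 : ℝ) < 2 ^ k := by positivity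
  have pk : (0 : ℝ) < (Nat.factorial k : ℝ) := by exact_mod_cast Nat.factorial_pos k
  have pn : (0 : ℝ) < (Nat.factorial n : ℝ) := by exact_mod_cast Nat.factorial_pos n
  have hL : ((2 * n).choose (2 * k) : ℝ) * ((cPM (2 * k) : ℝ) * (Nat.factorial (2 * n - 2 * k + 1) : ℝ) *
        (cPM (2 * (n + k)) : ℝ) / (2 ^ k * 2 ^ k)) =
      (((2 * n).choose (2 * k) : ℝ) * (cPM (2 * k) : ℝ) * (Nat.factorial (2 * n - 2 * k + 1) : ℝ) *
        (2 ^ k * (Nat.factorial k : ℝ))) * ((cPM (2 * (n + k)) : ℝ) * (Nat.factorial n : ℝ)) /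
        ((2 ^ k * (Nat.factorial k : ℝ)) * (Nat.factorial n : ℝ) * (2 ^ k * 2 ^ k)) := by
    field_simp
  have hR : (2 * n + 1 : ℝ) * (Nat.factorial (2 * n) : ℝ) * (cPM (2 * n) : ℝ) *
        (((n + k).choose k : ℝ) * (1 / (2 ^ k * 2 ^ k))) =
      ((2 * n + 1 : ℝ) * (Nat.factorial (2 * n) : ℝ)) *
        ((cPM (2 * n) : ℝ) * 2 ^ k * (Nat.factorial (n + k) : ℝ)) /
        ((2 ^ k * (Nat.factorial k : ℝ)) * (Nat.factorial n : ℝ) * (2 ^ k * 2 ^ k)) := by
    rw [← hC]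
    field_simp
  rw [hL, hR]
  apply div_le_div_of_nonneg_right _ (by positivity)
  exact mul_le_mul hA hB (by positivity) (by positivity)

theorem vo16_split (g : ℕ → ℝ) (hg : ∀ k, g (2 * k + 1) = 0) (n : ℕ) :
    ∑ i ∈ Finset.range (2 * n + 1), g i = ∑ k ∈ Finset.range (n + 1), g (2 * k) := by
  induction n with
  | zero => simp
  | succ n ih =>
    rw [show 2 * (n + 1) + 1 = (2 * n + 1) + 1 + 1 by ring, Finset.sum_range_succ, Finset.sum_range_succ, ih,
      hg n, Finset.sum_range_succ _ (n + 1)]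
    have : 2 * n + 1 + 1 = 2 * (n + 1) := by ring
    rw [this]
    ring

theorem sum_D_le {V : Type} [Fintype V] (n : ℕ) (hV : Fintype.card V = 2 * n) :
    ∑ D : Finset V, (cPM D.card : ℝ) * (Nat.factorial (Fintype.card V - D.card + 1) : ℝ) *
        (cPM (Fintype.card V + D.card) : ℝ) / (2 : ℝ) ^ D.card ≤
      (2 * n + 1 : ℝ) * (Nat.factorial (2 * n) : ℝ) * (cPM (2 * n) : ℝ) * (4 / 3 : ℝ) ^ (n + 1) := by
  rw [hV]
  have h0 : ∑ D : Finset V, (cPM D.card : ℝ) * (Nat.factorial (2 * n - D.card + 1) : ℝ) *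
        (cPM (2 * n + D.card) : ℝ) / (2 : ℝ) ^ D.card =
      ∑ i ∈ Finset.range (2 * n + 1), ((2 * n).choose i : ℝ) *
        ((cPM i : ℝ) * (Nat.factorial (2 * n - i + 1) : ℝ) * (cPM (2 * n + i) : ℝ) / (2 : ℝ) ^ i) := by
    have h := Finset.sum_powerset_apply_card
      (fun i => (cPM i : ℝ) * (Nat.factorial (2 * n - i + 1) : ℝ) * (cPM (2 * n + i) : ℝ) / (2 : ℝ) ^ i)
      (x := (Finset.univ : Finset V))
    rw [Finset.powerset_univ, Finset.card_univ, hV] at h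
    rw [h]
    apply Finset.sum_congr rfl
    intro i _
    rw [nsmul_eq_mul]
  rw [h0, vo16_split _ _ n]
  · calc ∑ k ∈ Finset.range (n + 1), ((2 * n).choose (2 * k) : ℝ) *
          ((cPM (2 * k) : ℝ) * (Nat.factorial (2 * n - 2 * k + 1) : ℝ) *
            (cPM (2 * n + 2 * k) : ℝ) / (2 : ℝ) ^ (2 * k))
        ≤ ∑ k ∈ Finset.range (n + 1), (2 * n + 1 : ℝ) * (Nat.factorial (2 * n) : ℝ) * (cPM (2 * n) : ℝ) *
            (((n + k).choose k : ℝ) * (1 / 4 : ℝ) ^ k) := by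
          apply Finset.sum_le_sum
          intro k hk
          rw [Finset.mem_range] at hk
          exact vo16_term n k (by omega)
      _ = (2 * n + 1 : ℝ) * (Nat.factorial (2 * n) : ℝ) * (cPM (2 * n) : ℝ) * vo16_S n (n + 1) := by
          rw [← Finset.mul_sum, vo16_S]
      _ ≤ _ := mul_le_mul_of_nonneg_left (vo16_S_le n (n + 1)) (by positivity)
  · intro k
    rw [vo16_cPM_odd]
    simp

end Pool.Agent.H38H.VO
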