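import Pool.Agent.Lib.H38H.VO.Defs

/-!
Project H38H, chunk VO17 (S/M).
PURE, numerical. Induction on `n ≥ 1` for `f(n) ≤ (12/5)(n+1) g(n)` with f the left side, `g(n) = (4/3)^(2n) X(2n)`:
`f(n+1)/f(n) = (2n+2)(2n+1)(2n+1)(4/3)` and `g(n+1)/g(n) = (16/9)(6n+5)(6n+3)(6n+1)/36`, so
`(f/g)(n+1) = (f/g)(n) * 9(2n+2)(2n+1)/((6n+5)(6n+1))` and `9(2n+2)(2n+1)(n+1) ≤ (6n+5)(6n+1)(n+2)` for `n ≥ 1`
(it is `(36n²+54n+18)(n+1) ≤ (36n²+36n+5)(n+2)`). n = 1: f = 2 * 1 * 16/9, X 2 = 15/36, g = (16/9)(15/36), f/g = 4.8 = (12/5) * 2.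
Then `(12/5)(n+1) ≤ 6 n`.
-/

set_option autoImplicit false

namespace Pool.Agent.H38H.VO

open Classical

theorem vo17_cPM (n : ℕ) (hn : 1 ≤ n) : cPM (2 * (n + 1)) = (2 * n + 1) * cPM (2 * n) := by
  obtain ⟨k, rfl⟩ : ∃ k, n = k + 1 := ⟨n - 1, by omega⟩
  have h1 : 2 * (k + 1 + 1) % 2 = 0 := by omega
  have h2 : 2 * (k + 1) % 2 = 0 := by omega
  unfold cPM
  rw [if_pos h1, if_pos h2]
  have h3 : 2 * (k + 1 + 1) - 1 = (2 * k + 1) + 2 := by omega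
  have h5 : 2 * (k + 1) - 1 = 2 * k + 1 := by omega
  rw [h3, h5, Nat.doubleFactorial_add_two]
  ring_nf

theorem vo17_X (n : ℕ) (hn : 1 ≤ n) :
    X (2 * (n + 1)) = (6 * n + 5) * (6 * n + 3) * (6 * n + 1) / 36 * X (2 * n) := by
  obtain ⟨k, rfl⟩ : ∃ k, n = k + 1 := ⟨n - 1, by omega⟩
  unfold X
  have h3 : 3 * (2 * (k + 1 + 1)) - 1 = (6 * k + 5) + 2 + 2 + 2 := by omega
  have h5 : 3 * (2 * (k + 1)) - 1 = 6 * k + 5 := by omega
  rw [h3, h5, Nat.doubleFactorial_add_two, Nat.doubleFactorial_add_two, Nat.doubleFactorial_add_two]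
  have h6 : (6 : ℝ) ^ (2 * (k + 1 + 1)) = 6 ^ (2 * (k + 1)) * 36 := by
    rw [show 2 * (k + 1 + 1) = 2 * (k + 1) + 2 from by ring, pow_add]
    norm_num
  rw [h6]
  push_cast
  field_simp
  ring

theorem vo17_ind (n : ℕ) (hn : 1 ≤ n) :
    (Nat.factorial (2 * n) : ℝ) * (cPM (2 * n) : ℝ) * (4 / 3 : ℝ) ^ (n + 1) ≤
      12 / 5 * (n + 1) * ((4 / 3 : ℝ) ^ (2 * n) * X (2 * n)) := by
  induction n, hn using Nat.le_induction with
  | base =>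
    have h1 : cPM (2 * 1) = 1 := by
      unfold cPM
      norm_num [Nat.doubleFactorial]
    have h2 : X (2 * 1) = 15 / 36 := by
      unfold X
      norm_num [Nat.doubleFactorial]
    rw [h1, h2]
    norm_num [Nat.factorial]
  | succ n hn ih =>
    have hn' : (1 : ℝ) ≤ n := by exact_mod_cast hn
    have h1 : (Nat.factorial (2 * (n + 1)) : ℝ) = (2 * n + 2) * (2 * n + 1) * (Nat.factorial (2 * n) : ℝ) := by
      rw [show 2 * (n + 1) = (2 * n + 1) + 1 from by ring, Nat.factorial_succ, Nat.factorial_succ]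
      push_cast
      ring
    have h2 : (cPM (2 * (n + 1)) : ℝ) = (2 * n + 1) * (cPM (2 * n) : ℝ) := by
      rw [vo17_cPM n hn]
      push_cast
      ring
    have hX : 0 ≤ X (2 * n) := by
      unfold X
      positivity
    have hG : 0 ≤ (4 / 3 : ℝ) ^ (2 * n) * X (2 * n) := by positivity
    generalize hGd : (4 / 3 : ℝ) ^ (2 * n) * X (2 * n) = G at *
    generalize hFd : (Nat.factorial (2 * n) : ℝ) * (cPM (2 * n) : ℝ) * (4 / 3 : ℝ) ^ (n + 1) = F at *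
    have h3 : (Nat.factorial (2 * (n + 1)) : ℝ) * (cPM (2 * (n + 1)) : ℝ) * (4 / 3 : ℝ) ^ (n + 1 + 1) =
        (2 * n + 2) * (2 * n + 1) * (2 * n + 1) * (4 / 3) * F := by
      rw [h1, h2, ← hFd, pow_succ (4 / 3 : ℝ) (n + 1)]
      ring
    have h4 : (4 / 3 : ℝ) ^ (2 * (n + 1)) * X (2 * (n + 1)) =
        16 / 9 * ((6 * n + 5) * (6 * n + 3) * (6 * n + 1) / 36) * G := by
      rw [vo17_X n hn, ← hGd, show 2 * (n + 1) = 2 * n + 2 from by ring, pow_add]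
      ring
    rw [h3, h4]
    have h5 : (2 * (n : ℝ) + 2) * (2 * n + 1) * (2 * n + 1) * (4 / 3) * F ≤
        (2 * n + 2) * (2 * n + 1) * (2 * n + 1) * (4 / 3) * (12 / 5 * (n + 1) * G) :=
      mul_le_mul_of_nonneg_left ih (by positivity)
    refine h5.trans ?_
    have h6 : (2 * (n : ℝ) + 2) * (2 * n + 1) * (2 * n + 1) * (4 / 3) * (12 / 5 * (n + 1)) ≤
        12 / 5 * (((n + 1 : ℕ) : ℝ) + 1) * (16 / 9 * ((6 * n + 5) * (6 * n + 3) * (6 * n + 1) / 36)) := by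
      push_cast
      nlinarith [mul_nonneg (by linarith : (0 : ℝ) ≤ (n : ℝ) - 1) (by linarith : (0 : ℝ) ≤ (n : ℝ)),
        mul_nonneg (mul_nonneg (by linarith : (0 : ℝ) ≤ (n : ℝ) - 1) (by linarith : (0 : ℝ) ≤ (n : ℝ)))
          (by linarith : (0 : ℝ) ≤ (n : ℝ)), pow_nonneg (by linarith : (0 : ℝ) ≤ (n : ℝ)) 4]
    calc _ = (2 * (n : ℝ) + 2) * (2 * n + 1) * (2 * n + 1) * (4 / 3) * (12 / 5 * (n + 1)) * G := by ring
      _ ≤ 12 / 5 * (((n + 1 : ℕ) : ℝ) + 1) * (16 / 9 * ((6 * n + 5) * (6 * n + 3) * (6 * n + 1) / 36)) * G :=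
          mul_le_mul_of_nonneg_right h6 hG
      _ = _ := by ring

theorem final_ratio (n : ℕ) (hn : 1 ≤ n) :
    (Nat.factorial (2 * n) : ℝ) * (cPM (2 * n) : ℝ) * (4 / 3 : ℝ) ^ (n + 1) ≤
      6 * n * ((4 / 3 : ℝ) ^ (2 * n) * X (2 * n)) := by
  have hn' : (1 : ℝ) ≤ n := by exact_mod_cast hn
  have hX : 0 ≤ X (2 * n) := by
    unfold X
    positivity
  refine (vo17_ind n hn).trans (mul_le_mul_of_nonneg_right ?_ (by positivity))
  linarith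

end Pool.Agent.H38H.VO
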