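import Pool.Agent.Lib.H38H.VO.Defs

/-!
Project H38H, chunk VO1 (S/M).
PURE. Row expansion by units. For a bijection `σ` the product over the rows other than `i0` is the same for
`A` and `dec A i0 j`; in row `i0`: sum over j of A i0 j * (A i0 (σ i0) - [j = σ i0]) = (s - 1) * A i0 (σ i0), s the row sum
(also when some entries are 0; for s = 0 both sides are 0). `per_transpose`: reindex the sum by `σ ↦ σ.symm`
(`Equiv.sum_comp`, `Equiv.prod_comp`). `unit_col` is `unit_row` for the transpose.
-/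

set_option autoImplicit false

namespace Pool.Agent.H38H.VO

open Classical

theorem vo1_prod {ι κ : Type} [Fintype ι] (A : ι → κ → ℕ) (i0 : ι) (j : κ) (σ : ι → κ) :
    ∏ i, dec A i0 j i (σ i) =
      (A i0 (σ i0) - if σ i0 = j then 1 else 0) * ∏ i ∈ Finset.univ.erase i0, A i (σ i) := by
  rw [← Finset.mul_prod_erase Finset.univ _ (Finset.mem_univ i0)]
  congr 1
  · unfold dec
    by_cases h : σ i0 = j
    · rw [if_pos ⟨rfl, h⟩, if_pos h]
    · rw [if_neg (fun hh => h hh.2), if_neg h, Nat.sub_zero]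
  · refine Finset.prod_congr rfl fun i hi => ?_
    unfold dec
    rw [if_neg (fun hh => Finset.ne_of_mem_erase hi hh.1)]

theorem vo1_row {κ : Type} [Fintype κ] (a : κ → ℕ) (k : κ) :
    ∑ j, a j * (a k - if k = j then 1 else 0) = (∑ j, a j - 1) * a k := by
  rcases Nat.eq_zero_or_pos (a k) with h | h
  · rw [h, mul_zero]
    apply Finset.sum_eq_zero
    intro j _
    rw [Nat.zero_sub, mul_zero]
  · rw [← Finset.add_sum_erase Finset.univ _ (Finset.mem_univ k),
      ← Finset.add_sum_erase Finset.univ a (Finset.mem_univ k), if_pos rfl]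
    have h1 : ∑ j ∈ Finset.univ.erase k, a j * (a k - if k = j then 1 else 0) =
        (∑ j ∈ Finset.univ.erase k, a j) * a k := by
      rw [Finset.sum_mul]
      refine Finset.sum_congr rfl fun j hj => ?_
      rw [if_neg (Finset.ne_of_mem_erase hj).symm, Nat.sub_zero]
    rw [h1]
    obtain ⟨t, ht⟩ : ∃ t, a k = t + 1 := ⟨a k - 1, by omega⟩
    rw [ht]
    have h2 : t + 1 + ∑ j ∈ Finset.univ.erase k, a j - 1 = t + ∑ j ∈ Finset.univ.erase k, a j := by
      omega
    rw [h2, Nat.add_sub_cancel]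
    ring

/-- row expansion by units -/
theorem unit_row {ι κ : Type} [Fintype ι] [Fintype κ] (A : ι → κ → ℕ) (i0 : ι) :
    ∑ j, A i0 j * per (dec A i0 j) = (∑ j, A i0 j - 1) * per A := by
  unfold per
  simp only [vo1_prod]
  simp only [Finset.mul_sum]
  rw [Finset.sum_comm]
  refine Finset.sum_congr rfl fun σ _ => ?_
  have h1 : ∀ j, A i0 j * ((A i0 (σ i0) - if σ i0 = j then 1 else 0) *
      ∏ i ∈ Finset.univ.erase i0, A i (σ i)) =
      A i0 j * (A i0 (σ i0) - if σ i0 = j then 1 else 0) *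
      ∏ i ∈ Finset.univ.erase i0, A i (σ i) := fun j => by ring
  simp only [h1]
  rw [← Finset.sum_mul, vo1_row (A i0) (σ i0), mul_assoc,
    Finset.mul_prod_erase Finset.univ (fun i => A i (σ i)) (Finset.mem_univ i0)]

theorem per_transpose {ι κ : Type} [Fintype ι] [Fintype κ] (A : ι → κ → ℕ) :
    per (fun j i => A i j) = per A := by
  unfold per
  refine Fintype.sum_equiv (Equiv.symmEquiv κ ι) _ _ fun σ => ?_
  have h := Equiv.prod_comp σ.symm (fun j => A (σ j) j)
  rw [← h]
  refine Finset.prod_congr rfl fun i _ => ?_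
  rw [Equiv.apply_symm_apply]
  rfl

/-- column expansion by units -/
theorem unit_col {ι κ : Type} [Fintype ι] [Fintype κ] (A : ι → κ → ℕ) (j0 : κ) :
    ∑ i, A i j0 * per (dec A i j0) = (∑ i, A i j0 - 1) * per A := by
  have h := unit_row (fun j i => A i j) j0
  rw [per_transpose] at h
  rw [← h]
  refine Finset.sum_congr rfl fun i _ => ?_
  congr 1
  rw [← per_transpose (dec A i j0)]
  congr 1
  funext j i'
  unfold dec
  by_cases h1 : i' = i ∧ j = j0
  · rw [if_pos h1, if_pos ⟨h1.2, h1.1⟩]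
  · rw [if_neg h1, if_neg fun h2 => h1 ⟨h2.2, h2.1⟩]

end Pool.Agent.H38H.VO
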