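import Pool.Agent.Lib.H38H.VO.Defs

/-!
Project H38H, chunk VO3 (S/M).
-/

set_option autoImplicit false

namespace Pool.Agent.H38H.VO

open Classical

theorem vo3_split {κ : Type} [Fintype κ] (f : κ → ℕ) (a : κ) :
    ∑ j, f j = f a + ∑ j : {j // j ≠ a}, f j.1 := by
  rw [← Finset.add_sum_erase _ _ (Finset.mem_univ a)]
  congr 1
  rw [← Finset.sum_subtype]
  simp

theorem vo3_one {κ : Type} [Fintype κ] (f : κ → ℕ) (h : ∑ j, f j = 1) :
    ∃ a, ∀ j, f j = if j = a then 1 else 0 := by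
  have h1 : ∃ a, f a ≠ 0 := by
    by_contra hc
    push Not at hc
    simp [hc] at h
  obtain ⟨a, ha⟩ := h1
  have h2 := vo3_split f a
  have h3 : f a = 1 ∧ ∑ j : {j // j ≠ a}, f j.1 = 0 := by omega
  refine ⟨a, fun j => ?_⟩
  split_ifs with hj
  · rw [hj]; exact h3.1
  · have h4 := (Finset.sum_eq_zero_iff.1 h3.2) ⟨j, hj⟩ (Finset.mem_univ _)
    exact h4

theorem row_two {κ : Type} [Fintype κ] (f : κ → ℕ) (h : ∑ j, f j = 2) :
    (∃ a b, a ≠ b ∧ ∀ j, f j = (if j = a then 1 else 0) + (if j = b then 1 else 0)) ∨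
      ∃ a, ∀ j, f j = if j = a then 2 else 0 := by
  have h1 : ∃ a, f a ≠ 0 := by
    by_contra hc
    push Not at hc
    simp [hc] at h
  obtain ⟨a, ha⟩ := h1
  have h2 := vo3_split f a
  rcases (show f a = 1 ∨ f a = 2 by omega) with h3 | h3
  · left
    have h4 : ∑ j : {j // j ≠ a}, f j.1 = 1 := by omega
    obtain ⟨b, hb⟩ := vo3_one (fun j : {j // j ≠ a} => f j.1) h4
    refine ⟨a, b.1, fun e => b.2 e.symm, fun j => ?_⟩
    by_cases hj : j = a
    · subst hj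
      rw [h3, if_pos rfl, if_neg (fun e => b.2 e.symm)]
    · have h5 := hb ⟨j, hj⟩
      simp only at h5
      rw [h5, if_neg hj, zero_add]
      by_cases hjb : j = b.1
      · rw [if_pos hjb, if_pos (Subtype.ext hjb)]
      · rw [if_neg hjb, if_neg (fun e => hjb (congrArg Subtype.val e))]
  · right
    have h4 : ∑ j : {j // j ≠ a}, f j.1 = 0 := by omega
    refine ⟨a, fun j => ?_⟩
    split_ifs with hj
    · rw [hj]; exact h3
    · exact (Finset.sum_eq_zero_iff.1 h4) ⟨j, hj⟩ (Finset.mem_univ _)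

theorem sub_U {ι κ : Type} [Fintype ι] [Fintype κ] (A : ι → κ → ℕ) (i0 : ι) (a : κ)
    (hV : Vmat A i0 a) (h : ∀ j, A i0 j = if j = a then 2 else 0) :
    Umat (fun (i : {i // i ≠ i0}) (j : {j // j ≠ a}) => A i.1 j.1) := by
  have hcol : ∀ i : {i // i ≠ i0}, A i.1 a = 0 := by
    have h1 := hV.2 a
    rw [if_pos rfl, vo3_split (fun i => A i a) i0, h a, if_pos rfl] at h1
    have h2 : ∑ i : {i // i ≠ i0}, A i.1 a = 0 := by omega
    exact fun i => (Finset.sum_eq_zero_iff.1 h2) i (Finset.mem_univ _)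
  refine ⟨fun i => ?_, fun j => ?_⟩
  · have h1 := hV.1 i.1
    rw [if_neg i.2, vo3_split (fun j => A i.1 j) a, hcol i] at h1
    simpa using h1
  · have h1 := hV.2 j.1
    rw [if_neg j.2, vo3_split (fun i => A i j.1) i0, h j.1, if_neg j.2] at h1
    simpa using h1

theorem sub_V {ι κ : Type} [Fintype ι] [Fintype κ] (A : ι → κ → ℕ) (i0 : ι) (a j0 : κ) (haj : j0 ≠ a)
    (hV : Vmat A i0 j0) (h : ∀ j, A i0 j = if j = a then 2 else 0) :
    ∃ i1 : {i // i ≠ i0},
      Vmat (fun (i : {i // i ≠ i0}) (j : {j // j ≠ a}) => A i.1 j.1) i1 ⟨j0, haj⟩ := by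
  have h0 : ∑ i : {i // i ≠ i0}, A i.1 a = 1 := by
    have h1 := hV.2 a
    rw [if_neg (fun e => haj e.symm), vo3_split (fun i => A i a) i0, h a, if_pos rfl] at h1
    omega
  obtain ⟨i1, hi1⟩ := vo3_one (fun i : {i // i ≠ i0} => A i.1 a) h0
  refine ⟨i1, fun i => ?_, fun j => ?_⟩
  · have h1 := hV.1 i.1
    have h2 : A i.1 a = if i = i1 then 1 else 0 := by convert hi1 i
    rw [if_neg i.2, vo3_split (fun j => A i.1 j) a, h2] at h1
    change ∑ j : {j // j ≠ a}, A i.1 j.1 = _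
    split_ifs at h1 ⊢ <;> omega
  · have h1 := hV.2 j.1
    rw [vo3_split (fun i => A i j.1) i0, h j.1, if_neg j.2, zero_add] at h1
    change ∑ i : {i // i ≠ i0}, A i.1 j.1 = _
    rw [h1]
    by_cases hj : j.1 = j0
    · rw [if_pos hj, if_pos (Subtype.ext hj)]
    · rw [if_neg hj, if_neg (fun e => hj (congrArg Subtype.val e))]

/-- row sums of the contraction -/
theorem vo3_ctr_row {ι κ : Type} [Fintype ι] [Fintype κ] (A : ι → κ → ℕ) (i0 : ι) (a b j0 : κ)
    (hab : a ≠ b) (hV : Vmat A i0 j0) (i : {i // i ≠ i0}) : ∑ j, ctr A i0 a b i j = 3 := by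
  have h1 := hV.1 i.1
  rw [if_neg i.2, vo3_split (fun j => A i.1 j) a] at h1
  unfold ctr
  rw [Finset.sum_add_distrib]
  have h2 : ∑ j : {j // j ≠ a}, (if j.1 = b then A i.1 a else 0) = A i.1 a := by
    rw [Finset.sum_eq_single (⟨b, fun e => hab e.symm⟩ : {j // j ≠ a})]
    · rw [if_pos rfl]
    · intro j _ hj
      rw [if_neg (fun e => hj (Subtype.ext e))]
    · intro h
      exact absurd (Finset.mem_univ _) h
  rw [h2]
  omega

/-- column sums of the contraction away from b -/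
theorem vo3_ctr_col {ι κ : Type} [Fintype ι] [Fintype κ] (A : ι → κ → ℕ) (i0 : ι) (a b j0 : κ)
    (hV : Vmat A i0 j0)
    (h : ∀ j, A i0 j = (if j = a then 1 else 0) + (if j = b then 1 else 0))
    (j : {j // j ≠ a}) (hj : j.1 ≠ b) : ∑ i, ctr A i0 a b i j = if j.1 = j0 then 2 else 3 := by
  have h1 := hV.2 j.1
  rw [vo3_split (fun i => A i j.1) i0, h j.1, if_neg j.2, if_neg hj, zero_add] at h1
  unfold ctr
  rw [← h1]
  simp [hj]

/-- column sum of the contraction at b -/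
theorem vo3_ctr_colb {ι κ : Type} [Fintype ι] [Fintype κ] (A : ι → κ → ℕ) (i0 : ι) (a b j0 : κ)
    (hab : a ≠ b) (hV : Vmat A i0 j0)
    (h : ∀ j, A i0 j = (if j = a then 1 else 0) + (if j = b then 1 else 0)) :
    (∑ i, ctr A i0 a b i ⟨b, fun e => hab e.symm⟩) + 2 = (if a = j0 then 2 else 3) + (if b = j0 then 2 else 3) := by
  have h1 := hV.2 b
  have h2 := hV.2 a
  rw [vo3_split (fun i => A i b) i0, h b, if_neg (fun e => hab e.symm), if_pos rfl] at h1
  rw [vo3_split (fun i => A i a) i0, h a, if_pos rfl, if_neg hab] at h2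
  unfold ctr
  rw [Finset.sum_add_distrib]
  simp only [if_true]
  have h3 : ∑ i : {i // i ≠ i0}, (if (b : κ) = b then A i.1 a else 0) = ∑ i : {i // i ≠ i0}, A i.1 a :=
    Finset.sum_congr rfl fun i _ => if_pos rfl
  omega

theorem ctr_U {ι κ : Type} [Fintype ι] [Fintype κ] (A : ι → κ → ℕ) (i0 : ι) (a b j0 : κ) (hab : a ≠ b)
    (hj : j0 = a ∨ j0 = b) (hV : Vmat A i0 j0)
    (h : ∀ j, A i0 j = (if j = a then 1 else 0) + (if j = b then 1 else 0)) :
    Umat (ctr A i0 a b) := by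
  refine ⟨fun i => vo3_ctr_row A i0 a b j0 hab hV i, fun j => ?_⟩
  by_cases hjb : j.1 = b
  · have h1 := vo3_ctr_colb A i0 a b j0 hab hV h
    have h2 : j = ⟨b, fun e => hab e.symm⟩ := Subtype.ext hjb
    rw [h2]
    rcases hj with hj | hj
    · rw [hj, if_pos rfl, if_neg (fun e => hab e.symm)] at h1
      omega
    · rw [hj, if_pos rfl, if_neg hab] at h1
      omega
  · rw [vo3_ctr_col A i0 a b j0 hV h j hjb]
    have h3 : j.1 ≠ j0 := by
      rcases hj with hj | hj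
      · rw [hj]; exact j.2
      · rw [hj]; exact hjb
    rw [if_neg h3]

theorem vo3_dec_row {ι κ : Type} [Fintype ι] [Fintype κ] (B : ι → κ → ℕ) (i1 : ι) (j1 : κ)
    (h : 1 ≤ B i1 j1) (i : ι) : ∑ j, dec B i1 j1 i j + (if i = i1 then 1 else 0) = ∑ j, B i j := by
  split_ifs with hi
  · subst hi
    rw [vo3_split _ j1, vo3_split (fun j => B i j) j1]
    have h1 : ∑ j : {j // j ≠ j1}, dec B i j1 i j.1 = ∑ j : {j // j ≠ j1}, B i j.1 :=
      Finset.sum_congr rfl fun j _ => if_neg (fun e => j.2 e.2)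
    have h2 : dec B i j1 i j1 = B i j1 - 1 := if_pos ⟨rfl, rfl⟩
    rw [h1, h2]
    omega
  · rw [add_zero]
    exact Finset.sum_congr rfl fun j _ => if_neg (fun e => hi e.1)

theorem vo3_dec_col {ι κ : Type} [Fintype ι] [Fintype κ] (B : ι → κ → ℕ) (i1 : ι) (j1 : κ)
    (h : 1 ≤ B i1 j1) (j : κ) : ∑ i, dec B i1 j1 i j + (if j = j1 then 1 else 0) = ∑ i, B i j := by
  split_ifs with hj
  · subst hj
    rw [vo3_split _ i1, vo3_split (fun i => B i j) i1]
    have h1 : ∑ i : {i // i ≠ i1}, dec B i1 j i.1 j = ∑ i : {i // i ≠ i1}, B i.1 j :=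
      Finset.sum_congr rfl fun i _ => if_neg (fun e => i.2 e.1)
    have h2 : dec B i1 j i1 j = B i1 j - 1 := if_pos ⟨rfl, rfl⟩
    rw [h1, h2]
    omega
  · rw [add_zero]
    exact Finset.sum_congr rfl fun i _ => if_neg (fun e => hj e.2)

theorem ctr_V {ι κ : Type} [Fintype ι] [Fintype κ] (A : ι → κ → ℕ) (i0 : ι) (a b j0 : κ) (hab : a ≠ b)
    (hja : j0 ≠ a) (hjb : j0 ≠ b) (hV : Vmat A i0 j0)
    (h : ∀ j, A i0 j = (if j = a then 1 else 0) + (if j = b then 1 else 0)) :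
    (∑ i, ctr A i0 a b i ⟨b, fun e => hab e.symm⟩ = 4) ∧
      ∀ i1, 1 ≤ ctr A i0 a b i1 ⟨b, fun e => hab e.symm⟩ →
        Vmat (dec (ctr A i0 a b) i1 ⟨b, fun e => hab e.symm⟩) i1 ⟨j0, hja⟩ := by
  have h4 : ∑ i, ctr A i0 a b i ⟨b, fun e => hab e.symm⟩ = 4 := by
    have h1 := vo3_ctr_colb A i0 a b j0 hab hV h
    rw [if_neg (fun e => hja e.symm), if_neg (fun e => hjb e.symm)] at h1
    omega
  refine ⟨h4, fun i1 hi1 => ⟨fun i => ?_, fun j => ?_⟩⟩
  · have h1 := vo3_dec_row (ctr A i0 a b) i1 ⟨b, fun e => hab e.symm⟩ hi1 i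
    rw [vo3_ctr_row A i0 a b j0 hab hV i] at h1
    split_ifs at h1 ⊢ <;> omega
  · have h1 := vo3_dec_col (ctr A i0 a b) i1 ⟨b, fun e => hab e.symm⟩ hi1 j
    by_cases hj : j.1 = b
    · have h2 : j = ⟨b, fun e => hab e.symm⟩ := Subtype.ext hj
      have h3 : j ≠ ⟨j0, hja⟩ := fun e => hjb ((congrArg Subtype.val e).symm.trans hj)
      rw [if_neg h3]
      rw [if_pos h2] at h1
      rw [h2] at h1 ⊢
      omega
    · have h2 : j ≠ ⟨b, fun e => hab e.symm⟩ := fun e => hj (congrArg Subtype.val e)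
      rw [if_neg h2, vo3_ctr_col A i0 a b j0 hV h j hj, add_zero] at h1
      rw [h1]
      by_cases hj0 : j.1 = j0
      · rw [if_pos hj0, if_pos (Subtype.ext hj0)]
      · rw [if_neg hj0, if_neg (fun e => hj0 (congrArg Subtype.val e))]

end Pool.Agent.H38H.VO
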