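import Pool.Agent.Lib.H38H.VO.Defs
import Pool.Agent.Lib.H38H.VO.VO1
import Pool.Agent.Lib.H38H.VO.VO2
import Pool.Agent.Lib.H38H.VO.VO3

/-!
Project H38H, chunk VO4 (M).
PURE. Voorhoeve: u(n) >= (3/2) v(n), v(n+1) >= (4/3) v(n), v(1) = 2. Uses VO1, VO2, VO3.
`u_of_v`: row `i0` has sum 3; `unit_row` gives `∑ j, A i0 j * per (dec A i0 j) = 2 * per A`; if `A i0 j ≥ 1` then `dec A i0 j`
is `Vmat` with exceptional row `i0`, column `j`, so the left side is `≥ 3 v`.
`v_step`: apply `row_two` to row `i0`. Contraction case with `j0 = a` or `b`: `per A = per (ctr ..)`, `Umat`, so `≥ (3/2) v ≥ (4/3) v` by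
`u_of_v`. Contraction case otherwise: `unit_col` for `ctr` at column `b`: `3 * per (ctr) = ∑ i, ctr i b * per (dec ctr i b) ≥ 4 v` (terms
with `ctr i b = 0` vanish). Double case: `per A = 2 * per (rest)`, `≥ 2 * (3/2) v` or `≥ 2 v`.
`v_bound` by induction on `n`: for `n = 0` the types have one element, `A = 2`, `per A = 2`. `u_bound`: `u_of_v` and `v_bound`.
(Card of `{i // i ≠ i0}`: `Fintype.card_subtype_compl`, `Fintype.card_unique`, or `Set.card_ne_eq`.)
-/

set_option autoImplicit false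

namespace Pool.Agent.H38H.VO

open Classical

theorem vo4_dec_row {ι κ : Type} [Fintype κ] (A : ι → κ → ℕ) (i0 : ι) (j : κ)
    (h0 : 1 ≤ A i0 j) (h : ∀ i, ∑ j, A i j = 3) (i : ι) :
    ∑ j', dec A i0 j i j' = if i = i0 then 2 else 3 := by
  by_cases hi : i = i0
  · subst hi
    rw [if_pos rfl, ← Finset.add_sum_erase Finset.univ _ (Finset.mem_univ j)]
    have h1 := h i
    rw [← Finset.add_sum_erase Finset.univ _ (Finset.mem_univ j)] at h1
    have h2 : ∑ j' ∈ Finset.univ.erase j, dec A i j i j' = ∑ j' ∈ Finset.univ.erase j, A i j' := by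
      refine Finset.sum_congr rfl fun j' hj' => ?_
      unfold dec
      rw [if_neg fun hh => Finset.ne_of_mem_erase hj' hh.2]
    have h3 : dec A i j i j = A i j - 1 := by
      unfold dec
      rw [if_pos ⟨rfl, rfl⟩]
    rw [h2, h3]
    omega
  · rw [if_neg hi, ← h i]
    refine Finset.sum_congr rfl fun j' _ => ?_
    unfold dec
    rw [if_neg fun hh => hi hh.1]

theorem vo4_dec_col {ι κ : Type} [Fintype ι] (A : ι → κ → ℕ) (i0 : ι) (j : κ)
    (h0 : 1 ≤ A i0 j) (h : ∀ j, ∑ i, A i j = 3) (j' : κ) :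
    ∑ i, dec A i0 j i j' = if j' = j then 2 else 3 := by
  by_cases hj : j' = j
  · subst hj
    rw [if_pos rfl, ← Finset.add_sum_erase Finset.univ _ (Finset.mem_univ i0)]
    have h1 := h j'
    rw [← Finset.add_sum_erase Finset.univ _ (Finset.mem_univ i0)] at h1
    have h2 : ∑ i ∈ Finset.univ.erase i0, dec A i0 j' i j' = ∑ i ∈ Finset.univ.erase i0, A i j' := by
      refine Finset.sum_congr rfl fun i hi => ?_
      unfold dec
      rw [if_neg fun hh => Finset.ne_of_mem_erase hi hh.1]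
    have h3 : dec A i0 j' i0 j' = A i0 j' - 1 := by
      unfold dec
      rw [if_pos ⟨rfl, rfl⟩]
    rw [h2, h3]
    omega
  · rw [if_neg hj, ← h j']
    refine Finset.sum_congr rfl fun i _ => ?_
    unfold dec
    rw [if_neg fun hh => hj hh.2]

theorem vo4_card {ι : Type} [Fintype ι] (i0 : ι) (n : ℕ) (h : Fintype.card ι = n + 1) :
    Fintype.card {i // i ≠ i0} = n := by
  rw [Fintype.card_subtype, Finset.filter_ne', Finset.card_erase_of_mem (Finset.mem_univ _),
    Finset.card_univ, h, Nat.add_sub_cancel]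

theorem u_of_v {ι κ : Type} [Fintype ι] [Fintype κ] [Nonempty ι] (v : ℝ)
    (hv : ∀ (A : ι → κ → ℕ) (i0 : ι) (j0 : κ), Vmat A i0 j0 → v ≤ per A) (A : ι → κ → ℕ) (hA : Umat A) :
    (3 / 2 : ℝ) * v ≤ per A := by
  obtain ⟨i0⟩ := (inferInstance : Nonempty ι)
  have h1 := unit_row A i0
  rw [hA.1 i0] at h1
  have h2 : (∑ j, (A i0 j : ℝ) * (per (dec A i0 j) : ℝ)) = 2 * (per A : ℝ) := by
    have := congrArg (fun n : ℕ => (n : ℝ)) h1
    push_cast at this
    linarith
  have h3 : ∀ j, (A i0 j : ℝ) * v ≤ (A i0 j : ℝ) * (per (dec A i0 j) : ℝ) := by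
    intro j
    rcases Nat.eq_zero_or_pos (A i0 j) with h0 | h0
    · rw [h0]
      simp
    · refine mul_le_mul_of_nonneg_left ?_ (Nat.cast_nonneg _)
      refine hv _ i0 j ⟨fun i => ?_, fun j' => ?_⟩
      · exact vo4_dec_row A i0 j h0 hA.1 i
      · exact vo4_dec_col A i0 j h0 hA.2 j'
  have h4 : ∑ j, (A i0 j : ℝ) * v = 3 * v := by
    rw [← Finset.sum_mul]
    have := hA.1 i0
    have h5 : ∑ j, (A i0 j : ℝ) = 3 := by exact_mod_cast this
    rw [h5]
  have h5 := Finset.sum_le_sum fun j (_ : j ∈ Finset.univ) => h3 j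
  rw [h4, h2] at h5
  linarith

theorem v_step (n : ℕ) (hn : 1 ≤ n) (v : ℝ) (hv0 : 0 ≤ v)
    (hv : ∀ (ι κ : Type) [Fintype ι] [Fintype κ], Fintype.card ι = n → Fintype.card κ = n →
      ∀ (A : ι → κ → ℕ) (i0 : ι) (j0 : κ), Vmat A i0 j0 → v ≤ per A)
    (ι κ : Type) [Fintype ι] [Fintype κ] (hι : Fintype.card ι = n + 1) (hκ : Fintype.card κ = n + 1)
    (A : ι → κ → ℕ) (i0 : ι) (j0 : κ) (hA : Vmat A i0 j0) : (4 / 3 : ℝ) * v ≤ per A := by
  have hcι := vo4_card i0 n hι
  have hne : Nonempty {i // i ≠ i0} := by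
    rw [← Fintype.card_pos_iff, hcι]
    omega
  have hrow : ∑ j, A i0 j = 2 := by
    rw [hA.1 i0, if_pos rfl]
  rcases row_two (A i0) hrow with ⟨a, b, hab, h⟩ | ⟨a, h⟩
  · have hcκ := vo4_card a n hκ
    rw [per_contract A i0 a b hab h]
    by_cases hj : j0 = a ∨ j0 = b
    · have hU := ctr_U A i0 a b j0 hab hj hA h
      have h1 := u_of_v v (fun B i j hB => hv _ _ hcι hcκ B i j hB) _ hU
      linarith
    · have hja : j0 ≠ a := fun e => hj (Or.inl e)
      have hjb : j0 ≠ b := fun e => hj (Or.inr e)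
      obtain ⟨h4, hV⟩ := ctr_V A i0 a b j0 hab hja hjb hA h
      have h1 := unit_col (ctr A i0 a b) ⟨b, fun e => hab e.symm⟩
      rw [h4] at h1
      have h2 : (∑ i, (ctr A i0 a b i ⟨b, fun e => hab e.symm⟩ : ℝ) *
          (per (dec (ctr A i0 a b) i ⟨b, fun e => hab e.symm⟩) : ℝ)) =
          3 * (per (ctr A i0 a b) : ℝ) := by
        have := congrArg (fun n : ℕ => (n : ℝ)) h1
        push_cast at this
        linarith
      have h3 : ∀ i, (ctr A i0 a b i ⟨b, fun e => hab e.symm⟩ : ℝ) * v ≤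
          (ctr A i0 a b i ⟨b, fun e => hab e.symm⟩ : ℝ) *
          (per (dec (ctr A i0 a b) i ⟨b, fun e => hab e.symm⟩) : ℝ) := by
        intro i
        rcases Nat.eq_zero_or_pos (ctr A i0 a b i ⟨b, fun e => hab e.symm⟩) with h0 | h0
        · rw [h0]
          simp
        · exact mul_le_mul_of_nonneg_left (hv _ _ hcι hcκ _ _ _ (hV i h0)) (Nat.cast_nonneg _)
      have h5 := Finset.sum_le_sum fun i (_ : i ∈ Finset.univ) => h3 i
      have h6 : ∑ i, (ctr A i0 a b i ⟨b, fun e => hab e.symm⟩ : ℝ) = 4 := by exact_mod_cast h4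
      rw [← Finset.sum_mul, h6, h2] at h5
      linarith
  · have hcκ := vo4_card a n hκ
    have h1 : (per A : ℝ) =
        2 * (per (fun (i : {i // i ≠ i0}) (j : {j // j ≠ a}) => A i.1 j.1) : ℝ) := by
      exact_mod_cast congrArg (fun n : ℕ => (n : ℝ)) (per_double A i0 a h)
    rw [h1]
    by_cases haj : j0 = a
    · subst haj
      have hU := sub_U A i0 j0 hA h
      have h2 := u_of_v v (fun B i j hB => hv _ _ hcι hcκ B i j hB) _ hU
      linarith
    · obtain ⟨i1, hV⟩ := sub_V A i0 a j0 haj hA h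
      have h2 := hv _ _ hcι hcκ _ _ _ hV
      linarith

theorem vo4_v (n : ℕ) : ∀ (ι κ : Type) [Fintype ι] [Fintype κ], Fintype.card ι = n + 1 →
    Fintype.card κ = n + 1 → ∀ (A : ι → κ → ℕ) (i0 : ι) (j0 : κ), Vmat A i0 j0 →
      2 * (4 / 3 : ℝ) ^ n ≤ per A := by
  induction n with
  | zero =>
    intro ι κ _ _ hι hκ A i0 j0 hA
    have h1 : Subsingleton ι := Fintype.card_le_one_iff_subsingleton.1 (by omega)
    have h2 : Subsingleton κ := Fintype.card_le_one_iff_subsingleton.1 (by omega)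
    have h3 : ∀ i j, A i j = 2 := by
      intro i j
      have h4 := hA.1 i
      rw [Fintype.sum_subsingleton _ j, if_pos (Subsingleton.elim i i0)] at h4
      exact h4
    have e : ι ≃ κ := Fintype.equivOfCardEq (by rw [hι, hκ])
    have h5 : 2 ≤ per A := by
      unfold per
      have h6 : ∏ i, A i (e i) = 2 := by
        rw [Finset.prod_congr rfl fun i _ => h3 i (e i), Finset.prod_const, Finset.card_univ, hι]
        rfl
      rw [← h6]
      exact Finset.single_le_sum (f := fun σ : ι ≃ κ => ∏ i, A i (σ i)) (fun _ _ => Nat.zero_le _)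
        (Finset.mem_univ e)
    rw [pow_zero, mul_one]
    exact_mod_cast h5
  | succ n ih =>
    intro ι κ _ _ hι hκ A i0 j0 hA
    have h1 := v_step (n + 1) (by omega) (2 * (4 / 3 : ℝ) ^ n) (by positivity)
      (fun ι' κ' _ _ h h' B i j hB => ih ι' κ' h h' B i j hB) ι κ hι hκ A i0 j0 hA
    rw [pow_succ]
    linarith

theorem v_bound (n : ℕ) (ι κ : Type) [Fintype ι] [Fintype κ] (hι : Fintype.card ι = n + 1)
    (hκ : Fintype.card κ = n + 1) (A : ι → κ → ℕ) (i0 : ι) (j0 : κ) (hA : Vmat A i0 j0) :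
    2 * (4 / 3 : ℝ) ^ n ≤ per A :=
  vo4_v n ι κ hι hκ A i0 j0 hA

theorem u_bound (n : ℕ) (ι κ : Type) [Fintype ι] [Fintype κ] (hι : Fintype.card ι = n + 1)
    (hκ : Fintype.card κ = n + 1) (A : ι → κ → ℕ) (hA : Umat A) :
    3 * (4 / 3 : ℝ) ^ n ≤ per A := by
  have hne : Nonempty ι := by
    rw [← Fintype.card_pos_iff, hι]
    omega
  have h := u_of_v (2 * (4 / 3 : ℝ) ^ n) (fun B i j hB => v_bound n ι κ hι hκ B i j hB) A hA
  linarith

end Pool.Agent.H38H.VO
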