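import Pool.Agent.Lib.H38H.VO.Defs
import Pool.Agent.Lib.H38H.VO.VO4

/-!
Project H38H, chunk VO5 (S/M).
Uses `u_bound` (VO4). `A u v = if G.Adj u v then 1 else 0` is `Umat` (`Cubic`, `Set.ncard`, symmetry), and
`per A = Nat.card {π // Compat G π}` (a product of 0/1 entries). `3 (4/3)^n ≥ (4/3)^(n+1)`.
-/

set_option autoImplicit false

namespace Pool.Agent.H38H.VO

open Classical

theorem compat_count {V : Type} [Fintype V] [Nonempty V] (G : SimpleGraph V) (hG : Cubic G) :
    (4 / 3 : ℝ) ^ Fintype.card V ≤ (Nat.card {π : Equiv.Perm V // Compat G π} : ℝ) := by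
  set A : V → V → ℕ := fun u v => if G.Adj u v then 1 else 0 with hAdef
  have hrow : ∀ i, ∑ j, A i j = 3 := by
    intro i
    have h1 := hG i
    rw [Set.ncard_eq_toFinset_card'] at h1
    rw [hAdef]
    simp only
    rw [Finset.sum_boole, ← h1]
    simp only [Nat.cast_id]
    congr 1
    ext j
    simp
  have hcol : ∀ j, ∑ i, A i j = 3 := by
    intro j
    rw [← hrow j]
    refine Finset.sum_congr rfl fun i _ => ?_
    rw [hAdef]
    simp only [G.adj_comm i j]
  obtain ⟨n, hn⟩ : ∃ n, Fintype.card V = n + 1 :=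
    ⟨Fintype.card V - 1, by have := Fintype.card_pos (α := V); omega⟩
  have h1 := u_bound n V V hn hn A ⟨hrow, hcol⟩
  have h2 : per A = Nat.card {π : Equiv.Perm V // Compat G π} := by
    unfold per
    rw [Nat.card_eq_fintype_card, Fintype.card_subtype]
    have h3 : ∀ σ : V ≃ V, ∏ i, A i (σ i) = if Compat G σ then 1 else 0 := by
      intro σ
      by_cases h : Compat G σ
      · rw [if_pos h]
        apply Finset.prod_eq_one
        intro i _
        rw [hAdef]
        simp only
        rw [if_pos (h i)]
      · rw [if_neg h]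
        unfold Compat at h
        push_neg at h
        obtain ⟨i, hi⟩ := h
        apply Finset.prod_eq_zero (Finset.mem_univ i)
        rw [hAdef]
        simp only
        rw [if_neg hi]
    rw [Finset.sum_congr rfl fun σ _ => h3 σ, Finset.sum_boole, Nat.cast_id]
  rw [← h2, hn, pow_succ]
  have h3 : (0 : ℝ) < (4 / 3 : ℝ) ^ n := by positivity
  linarith

end Pool.Agent.H38H.VO
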